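import Mathlib
import Pool.Agent.N681.MK.Tan1
import Pool.Agent.N989.MK.Clus

/-!
# Insertions in the hierarchical squares: algebra

`KK μ f g = f * f * f * g` is the convolution with three copies of `f`, `lft μ f g` is the weight of
a square of the next level when `f` is the weight of fifteen of its blocks and `g` the weight of the
sixteenth.
-/

open MeasureTheory Pool.Agent.N991.MK Pool.Agent.N989.MK Pool.Agent.N681.MK Filter

namespace Pool.Agent.N838.T3

set_option linter.unusedSectionVars false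

noncomputable section

variable {G : Type*} [Group G] [TopologicalSpace G] [IsTopologicalGroup G] [CompactSpace G]
  [MeasurableSpace G] [BorelSpace G] [SecondCountableTopology G]
  (μ : Measure G) [IsProbabilityMeasure μ] [μ.IsHaarMeasure] [μ.IsMulRightInvariant]
  [μ.IsInvInvariant]

/-- the convolution with three copies of `f` -/
def KK (f g : G → ℝ) : G → ℝ := conv μ (conv μ f (conv μ f f)) g

/-- the weight of a square when one block has the weight `g` and the others `f` -/
def lft (f g : G → ℝ) : G → ℝ := fun x => H4 μ f x ^ 3 * KK μ f g x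

/-- one step of the environment -/
def envS (f E : G → ℝ) : G → ℝ := conv μ (conv μ f (conv μ f f)) (fun x => H4 μ f x ^ 3 * E x)

/-- the environment of a square of level `j` inside the square of level `j + d` -/
def env (w : G → ℝ) : ℕ → ℕ → G → ℝ
  | _, 0 => fun _ => 1
  | j, d + 1 => envS μ (TTn μ w j) (env w (j + 1) d)

/-- the environment with an arbitrary environment of the large square -/
def envE (w : G → ℝ) (j : ℕ) : ℕ → (G → ℝ) → G → ℝ
  | 0, E => E
  | d + 1, E => envE w j d (envS μ (TTn μ w (j + d)) E)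

variable {μ}

lemma envE_succ (w : G → ℝ) (j : ℕ) : ∀ (d : ℕ) (E : G → ℝ),
    envE μ w j (d + 1) E = envS μ (TTn μ w j) (envE μ w (j + 1) d E)
  | 0, E => rfl
  | d + 1, E => by
    change envE μ w j (d + 1) (envS μ (TTn μ w (j + (d + 1))) E) = envS μ (TTn μ w j)
      (envE μ w (j + 1) d (envS μ (TTn μ w (j + 1 + d)) E))
    rw [envE_succ w j d, show j + (d + 1) = j + 1 + d by ring]

lemma env_eq (w : G → ℝ) : ∀ (d j : ℕ), env μ w j d = envE μ w j d fun _ => 1
  | 0, j => rfl
  | d + 1, j => by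
    rw [envE_succ]
    change envS μ (TTn μ w j) (env μ w (j + 1) d) = _
    rw [env_eq w d (j + 1)]

variable {f g h Z : G → ℝ}

/-- associativity -/
lemma conv_assoc (hf : Continuous f) (hg : Continuous g) (hh : Continuous h) :
    conv μ (conv μ f g) h = conv μ f (conv μ g h) := by
  funext x
  unfold Pool.Agent.N991.MK.conv
  have h1 : ∀ y, (∫ z, f z * g (z⁻¹ * y) ∂μ) * h (y⁻¹ * x) =
      ∫ z, f z * g (z⁻¹ * y) * h (y⁻¹ * x) ∂μ := fun y => by rw [integral_mul_const]
  simp only [h1]
  have hc : Continuous fun p : G × G => f p.2 * g (p.2⁻¹ * p.1) * h (p.1⁻¹ * x) := by fun_prop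
  rw [integral_integral_swap (f := fun y z => f z * g (z⁻¹ * y) * h (y⁻¹ * x))
    (hc.integrable_of_hasCompactSupport (HasCompactSupport.of_compactSpace _))]
  refine integral_congr_ae (Eventually.of_forall fun z => ?_)
  beta_reduce
  rw [← integral_mul_left_eq_self (μ := μ) (fun y => f z * g (z⁻¹ * y) * h (y⁻¹ * x)) z,
    ← integral_const_mul]
  refine integral_congr_ae (Eventually.of_forall fun y => ?_)
  beta_reduce
  have e1 : z⁻¹ * (z * y) = y := by group
  have e2 : (z * y)⁻¹ * x = y⁻¹ * (z⁻¹ * x) := by group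
  rw [e1, e2]
  ring

/-- the convolution with a symmetric function is symmetric -/
lemma conv_adj (hf : Continuous f) (hs : Sy f) (hg : Continuous g) (hh : Continuous h) :
    ∫ x, conv μ f g x * h x ∂μ = ∫ x, g x * conv μ f h x ∂μ := by
  unfold Pool.Agent.N991.MK.conv
  have h1 : ∀ x, (∫ y, f y * g (y⁻¹ * x) ∂μ) * h x = ∫ y, f y * g (y⁻¹ * x) * h x ∂μ :=
    fun x => by rw [integral_mul_const]
  have h2 : ∀ x, g x * ∫ y, f y * h (y⁻¹ * x) ∂μ = ∫ y, g x * (f y * h (y⁻¹ * x)) ∂μ :=
    fun x => by rw [integral_const_mul]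
  simp only [h1, h2]
  have hc : Continuous fun p : G × G => f p.2 * g (p.2⁻¹ * p.1) * h p.1 := by fun_prop
  have hc2 : Continuous fun p : G × G => g p.1 * (f p.2 * h (p.2⁻¹ * p.1)) := by fun_prop
  rw [integral_integral_swap (f := fun x y => f y * g (y⁻¹ * x) * h x)
    (hc.integrable_of_hasCompactSupport (HasCompactSupport.of_compactSpace _)),
    integral_integral_swap (f := fun x y => g x * (f y * h (y⁻¹ * x)))
    (hc2.integrable_of_hasCompactSupport (HasCompactSupport.of_compactSpace _)),
    ← integral_inv_eq_self (μ := μ)]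
  refine integral_congr_ae (Eventually.of_forall fun y => ?_)
  beta_reduce
  rw [← integral_mul_left_eq_self (μ := μ) (fun x => f y⁻¹ * g (y⁻¹⁻¹ * x) * h x) y⁻¹]
  refine integral_congr_ae (Eventually.of_forall fun x => ?_)
  beta_reduce
  have e1 : y⁻¹⁻¹ * (y⁻¹ * x) = x := by group
  rw [e1, hs]
  ring

lemma cont_KK (hf : Continuous f) (hg : Continuous g) : Continuous (KK μ f g) :=
  cont_conv (cont_conv hf (cont_conv hf hf)) hg

lemma cls_KK (hf : Cls f) (hg : Cls g) : Cls (KK μ f g) :=
  conv_cls (conv_cls hf (conv_cls hf hf)) hg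

lemma sy_KK (hf : Cls f) (hfs : Sy f) (hg : Cls g) (hgs : Sy g) : Sy (KK μ f g) :=
  conv_sy (conv_cls hf (conv_cls hf hf)) hg (conv_sy hf (conv_cls hf hf) hfs
    (conv_sy hf hf hfs hfs)) hgs

lemma KK_self (hf : Continuous f) : KK μ f f = H4 μ f := by
  unfold KK
  rw [← conv_assoc hf hf hf, conv_assoc (cont_conv hf hf) hf hf]
  rfl

lemma cls_H4 (hf : Cls f) : Cls (H4 μ f) := conv_cls (conv_cls hf hf) (conv_cls hf hf)

lemma cont_lft (hf : Continuous f) (hg : Continuous g) : Continuous (lft μ f g) :=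
  ((cont_H4 hf).pow 3).mul (cont_KK hf hg)

lemma cls_lft (hf : Cls f) (hg : Cls g) : Cls (lft μ f g) := fun a x => by
  unfold lft
  rw [cls_H4 hf, cls_KK hf hg]

lemma lft_self (hf : Continuous f) : lft μ f f = TT μ f := by
  funext x
  unfold lft Pool.Agent.N989.MK.TT
  rw [KK_self hf]
  ring

lemma KK_smul (a : ℝ) (f g : G → ℝ) : KK μ f (fun x => a * g x) = fun x => a * KK μ f g x := by
  funext x
  exact Pool.Agent.N989.MK.conv_smul_right a _ _ x

lemma lft_smul (a : ℝ) (f g : G → ℝ) :
    lft μ f (fun x => a * g x) = fun x => a * lft μ f g x := by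
  funext x
  unfold lft
  rw [KK_smul]
  ring

lemma cont_envS (hf : Continuous f) (hg : Continuous g) : Continuous (envS μ f g) :=
  cont_conv (cont_conv hf (cont_conv hf hf)) (((cont_H4 hf).pow 3).mul hg)

/-- the transposition -/
lemma int_lft (hf : Adm f) (hg : Continuous g) (hh : Continuous h) :
    ∫ x, lft μ f g x * h x ∂μ = ∫ x, g x * envS μ f h x ∂μ := by
  have c3 : Continuous (conv μ f (conv μ f f)) := cont_conv hf.cont (cont_conv hf.cont hf.cont)
  have s3 : Sy (conv μ f (conv μ f f)) :=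
    conv_sy hf.cls (conv_cls hf.cls hf.cls) hf.sy (conv_sy hf.cls hf.cls hf.sy hf.sy)
  have cH : Continuous fun x => H4 μ f x ^ 3 * h x := ((cont_H4 hf.cont).pow 3).mul hh
  have h1 := conv_adj (μ := μ) c3 s3 hg cH
  unfold envS
  rw [← h1]
  refine integral_congr_ae (Eventually.of_forall fun x => ?_)
  unfold lft KK
  beta_reduce
  ring

/-- the fourfold convolution with one insertion -/
lemma c4_ins {A : Fin 4 → G → ℝ} (hf : Continuous f) (hfc : Cls f) (hg : Continuous g)
    (hgc : Cls g) (r0 : Fin 4) (h : ∀ r, r ≠ r0 → A r = f) (h0 : A r0 = g) :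
    c4 μ A = KK μ f g := by
  have k1 : conv μ (conv μ f f) (conv μ f g) = KK μ f g := by
    unfold KK
    rw [← conv_assoc hf hf hf, conv_assoc (cont_conv hf hf) hf hg]
  have k2 : conv μ g f = conv μ f g := conv_comm hgc hfc
  have k3 : conv μ (conv μ f g) (conv μ f f) = KK μ f g := by
    rw [conv_comm (conv_cls hfc hgc) (conv_cls hfc hfc), k1]
  unfold c4
  fin_cases r0
  · have h0' : A 0 = g := h0
    rw [h0', h 1 (by decide), h 2 (by decide), h 3 (by decide), k2, k3]
  · have h0' : A 1 = g := h0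
    rw [h0', h 0 (by decide), h 2 (by decide), h 3 (by decide), k3]
  · have h0' : A 2 = g := h0
    rw [h0', h 0 (by decide), h 1 (by decide), h 3 (by decide), k2, k1]
  · have h0' : A 3 = g := h0
    rw [h0', h 0 (by decide), h 1 (by decide), h 2 (by decide), k1]

/-- the derivative is sixteen times the lift -/
lemma dTT_eq (hf : Continuous f) (hfc : Cls f) (hg : Continuous g) (hgc : Cls g) :
    dTT μ f g = fun x => 16 * lft μ f g x := by
  have k1 : conv μ (conv μ f f) (conv μ f g) = KK μ f g := by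
    unfold KK
    rw [← conv_assoc hf hf hf, conv_assoc (cont_conv hf hf) hf hg]
  have k2 : conv μ g f = conv μ f g := conv_comm hgc hfc
  have k3 : dcv μ f g = fun x => 2 * conv μ f g x := by
    funext x
    unfold dcv
    rw [k2]
    ring
  have k4 : dH4 μ f g = fun x => 4 * KK μ f g x := by
    funext x
    unfold dH4
    rw [k3]
    unfold dcv
    have c1 : Cls fun x => 2 * conv μ f g x := fun a x => by
      beta_reduce
      rw [conv_cls hfc hgc]
    rw [conv_comm c1 (conv_cls hfc hfc), Pool.Agent.N989.MK.conv_smul_right, k1]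
    ring
  funext x
  unfold dTT lft
  rw [k4]
  ring

lemma cls_dTn (hZ : Adm Z) (hg : Continuous g) (hgc : Cls g) : ∀ n, Cls (dTn μ Z g n)
  | 0 => hgc
  | n + 1 => by
    have h1 := cls_dTn hZ hg hgc n
    have hA := hZ.TTn (μ := μ) n
    change Cls (dTT μ (TTn μ Z n) (dTn μ Z g n))
    rw [dTT_eq hA.cont hA.cls (cont_dTn hZ.cont hg n) h1]
    intro a x
    beta_reduce
    rw [cls_lft hA.cls h1]

/-- the normalised derivative is the iterated lift -/
lemma dTn_lft (hZ : Adm Z) (hg : Continuous g) (hgc : Cls g) (n : ℕ) :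
    (fun x => (1 / 16 : ℝ) ^ (n + 1) * dTn μ Z g (n + 1) x) =
      lft μ (TTn μ Z n) fun x => (1 / 16 : ℝ) ^ n * dTn μ Z g n x := by
  have hA := hZ.TTn (μ := μ) n
  rw [lft_smul]
  funext x
  change (1 / 16 : ℝ) ^ (n + 1) * dTT μ (TTn μ Z n) (dTn μ Z g n) x = _
  rw [dTT_eq hA.cont hA.cls (cont_dTn hZ.cont hg n) (cls_dTn hZ hg hgc n)]
  rw [pow_succ]
  ring

end

end Pool.Agent.N838.T3
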