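import Mathlib
import Pool.Agent.N109.T3.Defs
import Pool.Agent.N838.T3.CovA
import Pool.Agent.N989.MK.Cov

/-!
# Insertions in the hierarchical squares: the covariance of two plaquettes
-/

open MeasureTheory Pool.Agent.N991.MK Pool.Agent.N989.MK Pool.Agent.N681.MK Filter
open Pool.Agent.N109.T3

namespace Pool.Agent.N838.T3

set_option linter.unusedSectionVars false

noncomputable section

variable {G : Type*} [Group G] [TopologicalSpace G] [IsTopologicalGroup G] [CompactSpace G]
  [MeasurableSpace G] [BorelSpace G] [SecondCountableTopology G]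
  {μ : Measure G} [IsProbabilityMeasure μ] [μ.IsHaarMeasure] [μ.IsMulRightInvariant]
  [μ.IsInvInvariant]

/-- continuous class functions as insertions -/
structure InsC {n : ℕ} (F : Pq n → G → ℝ) : Prop where
  c : ∀ p, Continuous (F p)
  l : ∀ p, Cls (F p)

lemma InsC.sub {n : ℕ} {F : Pq (n + 1) → G → ℝ} (h : InsC F) (s r : Fin 4) :
    InsC (fun p : Pq n => F (s, r, p)) :=
  ⟨fun p => h.c (s, r, p), fun p => h.l (s, r, p)⟩

lemma InsC.mul {n : ℕ} {F F' : Pq n → G → ℝ} (h : InsC F) (h' : InsC F') :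
    InsC (fun p x => F p x * F' p x) :=
  ⟨fun p => (h.c p).mul (h'.c p), fun p g x => by rw [h.l p g x, h'.l p g x]⟩

variable {f g h Z : G → ℝ}

lemma insC_ins1 {n : ℕ} (p : Pq n) (hf : Continuous f) (hc : Cls f) : InsC (ins1 p f) := by
  refine ⟨fun p' => ?_, fun p' g x => ?_⟩
  · unfold ins1
    by_cases h : p' = p
    · simpa [h] using hf
    · simpa [h] using continuous_const
  · unfold ins1
    by_cases h : p' = p
    · simp only [h, if_true]; exact hc g x
    · simp [h]

lemma cont_WF (hZ : Adm Z) {n : ℕ} {F : Pq n → G → ℝ} (h : InsC F) : Continuous (WF μ Z n F) :=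
  ZZ_cont n fun p => hZ.cont.mul (h.c p)

lemma cls_WF (hZ : Adm Z) {n : ℕ} {F : Pq n → G → ℝ} (h : InsC F) : Cls (WF μ Z n F) :=
  ZZ_cls n fun p g x => by rw [hZ.cls, h.l p]

/-- all insertions in one block -/
lemma WF_lift (hZ : Adm Z) {n : ℕ} {F : Pq (n + 1) → G → ℝ} (hF : InsC F) (s0 r0 : Fin 4)
    (h1 : ∀ s r, ¬(s = s0 ∧ r = r0) → ∀ p x, F (s, r, p) x = 1) :
    WF μ Z (n + 1) F = lft μ (TTn μ Z n) (WF μ Z n fun p => F (s0, r0, p)) := by
  have hA := hZ.TTn (μ := μ) n
  funext x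
  change ∏ s : Fin 4, c4 μ (fun r => WF μ Z n (fun p => F (s, r, p))) x = _
  have h2 : ∀ s, s ≠ s0 → c4 μ (fun r => WF μ Z n (fun p => F (s, r, p))) = H4 μ (TTn μ Z n) := by
    intro s hs
    have e : (fun r => WF μ Z n (fun p => F (s, r, p))) = fun _ => TTn μ Z n := by
      funext r
      exact WF_one n _ (h1 s r fun hh => hs hh.1)
    rw [e]
    rfl
  have h3 : c4 μ (fun r => WF μ Z n (fun p => F (s0, r, p))) =
      KK μ (TTn μ Z n) (WF μ Z n fun p => F (s0, r0, p)) :=
    c4_ins hA.cont hA.cls (cont_WF hZ (hF.sub s0 r0)) (cls_WF hZ (hF.sub s0 r0)) r0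
      (fun r hr => WF_one n _ (h1 s0 r fun hh => hr hh.2)) rfl
  rw [← Finset.mul_prod_erase Finset.univ _ (Finset.mem_univ s0), h3,
    Finset.prod_congr rfl (fun s hs => by rw [h2 s (Finset.ne_of_mem_erase hs)]),
    Finset.prod_const, Finset.card_erase_of_mem (Finset.mem_univ _), Finset.card_univ,
    Fintype.card_fin]
  unfold lft
  rw [mul_comm]

/-- the insertions in two blocks of different sheets -/
lemma WF_two (hZ : Adm Z) {n : ℕ} {F : Pq (n + 1) → G → ℝ} (hF : InsC F)
    {s1 r1 s2 r2 : Fin 4} (hs : s1 ≠ s2)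
    (h1 : ∀ s r, ¬(s = s1 ∧ r = r1) → ¬(s = s2 ∧ r = r2) → ∀ p x, F (s, r, p) x = 1) (x : G) :
    WF μ Z (n + 1) F x = H4 μ (TTn μ Z n) x ^ 2 *
      (KK μ (TTn μ Z n) (WF μ Z n fun p => F (s1, r1, p)) x *
        KK μ (TTn μ Z n) (WF μ Z n fun p => F (s2, r2, p)) x) := by
  have hA := hZ.TTn (μ := μ) n
  change ∏ s : Fin 4, c4 μ (fun r => WF μ Z n (fun p => F (s, r, p))) x = _
  have h2 : ∀ s, s ≠ s1 → s ≠ s2 →
      c4 μ (fun r => WF μ Z n (fun p => F (s, r, p))) = H4 μ (TTn μ Z n) := by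
    intro s hs1 hs2
    have e : (fun r => WF μ Z n (fun p => F (s, r, p))) = fun _ => TTn μ Z n := by
      funext r
      exact WF_one n _ (h1 s r (fun hh => hs1 hh.1) fun hh => hs2 hh.1)
    rw [e]
    rfl
  have h3 : c4 μ (fun r => WF μ Z n (fun p => F (s1, r, p))) =
      KK μ (TTn μ Z n) (WF μ Z n fun p => F (s1, r1, p)) :=
    c4_ins hA.cont hA.cls (cont_WF hZ (hF.sub s1 r1)) (cls_WF hZ (hF.sub s1 r1)) r1
      (fun r hr => WF_one n _ (h1 s1 r (fun hh => hr hh.2) fun hh => hs hh.1)) rfl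
  have h4 : c4 μ (fun r => WF μ Z n (fun p => F (s2, r, p))) =
      KK μ (TTn μ Z n) (WF μ Z n fun p => F (s2, r2, p)) :=
    c4_ins hA.cont hA.cls (cont_WF hZ (hF.sub s2 r2)) (cls_WF hZ (hF.sub s2 r2)) r2
      (fun r hr => WF_one n _ (h1 s2 r (fun hh => hs hh.1.symm) fun hh => hr hh.2)) rfl
  have hm : s2 ∈ Finset.univ.erase s1 := Finset.mem_erase.2 ⟨hs.symm, Finset.mem_univ _⟩
  rw [← Finset.mul_prod_erase Finset.univ _ (Finset.mem_univ s1), h3,
    ← Finset.mul_prod_erase _ _ hm, h4,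
    Finset.prod_congr rfl (fun s hs => by
      rw [h2 s (Finset.ne_of_mem_erase (Finset.mem_of_mem_erase hs)) (Finset.ne_of_mem_erase hs)]),
    Finset.prod_const, Finset.card_erase_of_mem hm,
    Finset.card_erase_of_mem (Finset.mem_univ _), Finset.card_univ, Fintype.card_fin]
  ring

lemma ins1_in {n : ℕ} (s r : Fin 4) (p : Pq n) (f : G → ℝ) :
    (fun p' : Pq n => ins1 (show Pq (n + 1) from (s, r, p)) f (show Pq (n + 1) from (s, r, p'))) =
      ins1 p f := by
  funext p' x
  unfold ins1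
  by_cases h : p' = p
  · simp [h]
  · have h2 : ¬ ((s, r, p') : Fin 4 × Fin 4 × Pq n) = (s, r, p) := by
      intro h3
      exact h (Prod.ext_iff.1 (Prod.ext_iff.1 h3).2).2
    rw [if_neg h]
    exact if_neg h2

lemma ins1_out {n : ℕ} {s r s' r' : Fin 4} (h : ¬(s' = s ∧ r' = r)) (p p' : Pq n) (f : G → ℝ)
    (x : G) : ins1 (show Pq (n + 1) from (s, r, p)) f (show Pq (n + 1) from (s', r', p')) x =
      1 := by
  unfold ins1
  have h2 : ¬ ((s', r', p') : Fin 4 × Fin 4 × Pq n) = (s, r, p) := by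
    intro h3
    exact h ⟨(Prod.ext_iff.1 h3).1, (Prod.ext_iff.1 (Prod.ext_iff.1 h3).2).1⟩
  exact if_neg h2

/-- the normalised derivative -/
def Dn (μ : Measure G) (Z h : G → ℝ) (n : ℕ) : G → ℝ := fun x =>
  (1 / 16 : ℝ) ^ n * dTn μ Z (fun x => h x * Z x) n x

lemma cont_hZ (hZ : Adm Z) (hh : Continuous h) : Continuous fun x => h x * Z x := hh.mul hZ.cont

lemma cls_hZ (hZ : Adm Z) (hc : Cls h) : Cls fun x => h x * Z x := fun a x => by
  beta_reduce
  rw [hc, hZ.cls]

lemma Dn_succ (hZ : Adm Z) (hh : Continuous h) (hc : Cls h) (n : ℕ) :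
    Dn μ Z h (n + 1) = lft μ (TTn μ Z n) (Dn μ Z h n) :=
  dTn_lft hZ (cont_hZ hZ hh) (cls_hZ hZ hc) n

lemma cont_Dn (hZ : Adm Z) (hh : Continuous h) (n : ℕ) : Continuous (Dn μ Z h n) :=
  continuous_const.mul (cont_dTn hZ.cont (cont_hZ hZ hh) n)

lemma cls_Dn (hZ : Adm Z) (hh : Continuous h) (hc : Cls h) (n : ℕ) : Cls (Dn μ Z h n) :=
  fun a x => by
    unfold Dn
    rw [cls_dTn hZ (cont_hZ hZ hh) (cls_hZ hZ hc) n]

/-- **one insertion**: the weight does not depend on the plaquette -/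
lemma WF_ins (hZ : Adm Z) (hh : Continuous h) (hc : Cls h) : ∀ (n : ℕ) (p : Pq n),
    WF μ Z n (ins1 p h) = Dn μ Z h n
  | 0, p => by
    funext x
    change Z x * ins1 p h () x = (1 / 16 : ℝ) ^ 0 * (h x * Z x)
    have e : ins1 p h () x = h x := by
      unfold ins1
      exact if_pos rfl
    rw [e]
    ring
  | n + 1, (s, r, p) => by
    rw [WF_lift hZ (insC_ins1 _ hh hc) s r (fun s' r' h' p' x => ins1_out h' p p' h x)]
    have e : (fun p' : Pq n => ins1 (show Pq (n + 1) from (s, r, p)) h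
      (show Pq (n + 1) from (s, r, p'))) = ins1 p h := ins1_in s r p h
    rw [e, WF_ins hZ hh hc n p, Dn_succ hZ hh hc]

lemma anc_le : ∀ {n : ℕ} (p q : Pq n), anc n p q ≤ n
  | 0, _, _ => le_rfl
  | n + 1, (s, r, p), (s', r', q) => by
    by_cases hs : s = s' ∧ r = r'
    · simp only [anc, if_pos hs]
      exact (anc_le p q).trans (Nat.le_succ n)
    · simp only [anc, if_neg hs]
      exact le_rfl

/-- the integral of a sequence of lifts -/
lemma int_lifts (hZ : Adm Z) {W : ℕ → G → ℝ} (hW : ∀ j, Continuous (W j)) (j : ℕ) :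
    ∀ (d : ℕ) (_ : ∀ i, j ≤ i → W (i + 1) = lft μ (TTn μ Z i) (W i)) (E : G → ℝ)
      (_ : Continuous E), ∫ x, W (j + d) x * E x ∂μ = ∫ x, W j x * envE μ Z j d E x ∂μ
  | 0, _, E, _ => rfl
  | d + 1, h, E, hE => by
    have hA := hZ.TTn (μ := μ) (j + d)
    have e : W (j + (d + 1)) = lft μ (TTn μ Z (j + d)) (W (j + d)) := h (j + d) (by omega)
    rw [e, int_lft hA (hW _) hE, int_lifts hZ hW j d h _ (cont_envS hA.cont hE)]
    rfl

/-- **two insertions** in different sheets of their smallest common square -/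
lemma int_two (hZ : Adm Z) (hg : Continuous g) (hgc : Cls g) (hh : Continuous h) (hc : Cls h) :
    ∀ (n : ℕ) (p q : Pq n), Sep p q → ∀ E : G → ℝ, Continuous E →
      ∫ x, WF μ Z n (fun p' x => ins1 p g p' x * ins1 q h p' x) x * E x ∂μ =
        ∫ x, Dn μ Z g (anc n p q) x * Dn μ Z h (anc n p q) x / TTn μ Z (anc n p q) x *
          envE μ Z (anc n p q) (n - anc n p q) E x ∂μ
  | 0, _, _, hs, _, _ => absurd hs id
  | n + 1, (s, r, p), (s', r', q), hs, E, hE => by
    have hA := hZ.TTn (μ := μ) n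
    have hI : InsC (fun (p' : Pq (n + 1)) x => ins1 (show Pq (n + 1) from (s, r, p)) g p' x *
        ins1 (show Pq (n + 1) from (s', r', q)) h p' x) :=
      (insC_ins1 _ hg hgc).mul (insC_ins1 _ hh hc)
    by_cases hss : s = s'
    · subst hss
      have hs2 : s ≠ s ∨ (r = r' ∧ Sep p q) := hs
      obtain ⟨rfl, hs3⟩ := hs2.resolve_left (fun h => h rfl)
      have ha : anc (n + 1) (show Pq (n + 1) from (s, r, p)) (show Pq (n + 1) from (s, r, q)) =
          anc n p q := by
        change (if s = s ∧ r = r then anc n p q else n + 1) = _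
        rw [if_pos ⟨rfl, rfl⟩]
      have hle := anc_le p q
      rw [ha, WF_lift hZ hI s r (fun s' r' h' p' x => by
        rw [ins1_out h', ins1_out h', one_mul])]
      have e : (fun (p' : Pq n) x => ins1 (show Pq (n + 1) from (s, r, p)) g
          (show Pq (n + 1) from (s, r, p')) x * ins1 (show Pq (n + 1) from (s, r, q)) h
          (show Pq (n + 1) from (s, r, p')) x) = fun p' x => ins1 p g p' x * ins1 q h p' x := by
        funext p' x
        rw [← congrFun (congrFun (ins1_in s r p g) p') x,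
          ← congrFun (congrFun (ins1_in s r q h) p') x]
      have hI' : InsC (fun (p' : Pq n) x => ins1 p g p' x * ins1 q h p' x) :=
        (insC_ins1 _ hg hgc).mul (insC_ins1 _ hh hc)
      rw [e, int_lft hA (cont_WF hZ hI') hE, int_two hZ hg hgc hh hc n p q hs3 _
        (cont_envS hA.cont hE)]
      have e2 : n + 1 - anc n p q = (n - anc n p q) + 1 := by omega
      have e3 : anc n p q + (n - anc n p q) = n := by omega
      rw [e2]
      have e4 : envE μ Z (anc n p q) (n - anc n p q + 1) E =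
          envE μ Z (anc n p q) (n - anc n p q) (envS μ (TTn μ Z n) E) := by
        change envE μ Z (anc n p q) (n - anc n p q)
          (envS μ (TTn μ Z (anc n p q + (n - anc n p q))) E) = _
        rw [e3]
      rw [e4]
    · have ha : anc (n + 1) (show Pq (n + 1) from (s, r, p)) (show Pq (n + 1) from (s', r', q)) =
          n + 1 := by
        change (if s = s' ∧ r = r' then anc n p q else n + 1) = _
        rw [if_neg (fun h => hss h.1)]
      rw [ha, Nat.sub_self]
      refine integral_congr_ae (Eventually.of_forall fun x => ?_)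
      beta_reduce
      rw [WF_two hZ hI hss (fun s1 r1 h1 h2 p' x => by
        rw [ins1_out h1, ins1_out h2, one_mul])]
      have e1 : (fun (p' : Pq n) x => ins1 (show Pq (n + 1) from (s, r, p)) g
          (show Pq (n + 1) from (s, r, p')) x * ins1 (show Pq (n + 1) from (s', r', q)) h
          (show Pq (n + 1) from (s, r, p')) x) = ins1 p g := by
        funext p' x
        rw [ins1_out (fun h => hss h.1) q p' h x, mul_one]
        exact congrFun (congrFun (ins1_in s r p g) p') x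
      have e2 : (fun (p' : Pq n) x => ins1 (show Pq (n + 1) from (s, r, p)) g
          (show Pq (n + 1) from (s', r', p')) x * ins1 (show Pq (n + 1) from (s', r', q)) h
          (show Pq (n + 1) from (s', r', p')) x) = ins1 q h := by
        funext p' x
        rw [ins1_out (fun h => hss h.1.symm) p p' g x, one_mul]
        exact congrFun (congrFun (ins1_in s' r' q h) p') x
      rw [e1, e2, WF_ins hZ hg hgc n p, WF_ins hZ hh hc n q, Dn_succ hZ hg hgc,
        Dn_succ hZ hh hc]
      change _ = lft μ (TTn μ Z n) (Dn μ Z g n) x * lft μ (TTn μ Z n) (Dn μ Z h n) x /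
        H4 μ (TTn μ Z n) x ^ 4 * E x
      unfold lft
      have h4 := ((hA.H4 (μ := μ)).pos x).ne'
      field_simp

end

end Pool.Agent.N838.T3
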