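import Mathlib
import Pool.Agent.N838.T3.CovB
import Pool.Agent.N681.MK.Tan4

/-!
# The covariance formula

The covariance of two plaquettes in different sheets of their smallest common square, of level `a`,
is a variance: `16 ^ (-2 a)` times the variance of the renormalised field of the level `a` in the
measure `f E / ∫ f E`, where `f` is the weight of the square of level `a` and `E` its environment.
-/

open MeasureTheory Pool.Agent.N991.MK Pool.Agent.N989.MK Pool.Agent.N681.MK Filter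
open Pool.Agent.N109.T3

namespace Pool.Agent.N838.T3

set_option linter.unusedSectionVars false

noncomputable section

variable {G : Type*} [Group G] [TopologicalSpace G] [IsTopologicalGroup G] [CompactSpace G]
  [MeasurableSpace G] [BorelSpace G] [SecondCountableTopology G]
  (μ : Measure G) [IsProbabilityMeasure μ] [μ.IsHaarMeasure] [μ.IsMulRightInvariant]
  [μ.IsInvInvariant]

/-- the variance of the field `h / f` in the measure `f E / ∫ f E` -/
def vr (f h E : G → ℝ) : ℝ :=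
  (∫ z, h z ^ 2 / f z * E z ∂μ) / (∫ z, f z * E z ∂μ) -
    ((∫ z, h z * E z ∂μ) / (∫ z, f z * E z ∂μ)) ^ 2

/-- the covariance of the fields `g / f` and `h / f` in the measure `f E / ∫ f E` -/
def cvr (f g h E : G → ℝ) : ℝ :=
  (∫ z, g z * h z / f z * E z ∂μ) / (∫ z, f z * E z ∂μ) -
    (∫ z, g z * E z ∂μ) / (∫ z, f z * E z ∂μ) * ((∫ z, h z * E z ∂μ) / ∫ z, f z * E z ∂μ)

variable {μ} {f g h Z E : G → ℝ}

lemma cvr_self (f h E : G → ℝ) : cvr μ f h h E = vr μ f h E := by
  unfold cvr vr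
  simp only [sq]

lemma cont_envE (hZ : Adm Z) (j : ℕ) : ∀ (d : ℕ) {E : G → ℝ}, Continuous E →
    Continuous (envE μ Z j d E)
  | 0, _, hE => hE
  | d + 1, _, hE => cont_envE hZ j d (cont_envS (μ := μ) (hZ.TTn (j + d)).cont hE)

lemma cont_env (hZ : Adm Z) (j d : ℕ) : Continuous (env μ Z j d) := by
  rw [env_eq]
  exact cont_envE hZ j d continuous_const

lemma envS_pos (hf : Adm f) (hE : Continuous E) (hp : ∀ x, 0 < E x) (x : G) :
    0 < envS μ f E x := by
  have h1 := conv_pos (μ := μ) hf.cont (cont_conv (μ := μ) hf.cont hf.cont) hf.pos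
    (conv_pos hf.cont hf.cont hf.pos hf.pos)
  exact conv_pos (cont_conv hf.cont (cont_conv hf.cont hf.cont))
    (((cont_H4 hf.cont).pow 3).mul hE) h1
    (fun y => mul_pos (pow_pos ((hf.H4 (μ := μ)).pos y) 3) (hp y)) x

lemma env_pos (hZ : Adm Z) : ∀ (d j : ℕ) (x : G), 0 < env μ Z j d x
  | 0, _, _ => one_pos
  | d + 1, j, x => envS_pos (μ := μ) (hZ.TTn j) (cont_env hZ (j + 1) d)
      (env_pos hZ d (j + 1)) x

lemma cls_env (hZ : Adm Z) : ∀ (d j : ℕ), Cls (env μ Z j d)
  | 0, _ => fun _ _ => rfl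
  | d + 1, j => by
    have hA := hZ.TTn (μ := μ) j
    have h1 := cls_env hZ d (j + 1)
    have hc : Cls (conv μ (TTn μ Z j) (TTn μ Z j)) := conv_cls hA.cls hA.cls
    have hc3 : Cls (conv μ (TTn μ Z j) (conv μ (TTn μ Z j) (TTn μ Z j))) := conv_cls hA.cls hc
    change Cls (envS μ (TTn μ Z j) (env μ Z (j + 1) d))
    refine conv_cls (μ := μ) hc3 fun a x => ?_
    rw [cls_H4 hA.cls, h1]

lemma sy_env (hZ : Adm Z) : ∀ (d j : ℕ), Sy (env μ Z j d)
  | 0, _ => fun _ => rfl
  | d + 1, j => by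
    have hA := hZ.TTn (μ := μ) j
    have h1 := cls_env (μ := μ) hZ d (j + 1)
    have h2 := sy_env hZ d (j + 1)
    have hc : Cls (conv μ (TTn μ Z j) (TTn μ Z j)) := conv_cls hA.cls hA.cls
    have hc3 : Cls (conv μ (TTn μ Z j) (conv μ (TTn μ Z j) (TTn μ Z j))) := conv_cls hA.cls hc
    have hs : Sy (conv μ (TTn μ Z j) (TTn μ Z j)) := conv_sy hA.cls hA.cls hA.sy hA.sy
    change Sy (envS μ (TTn μ Z j) (env μ Z (j + 1) d))
    refine conv_sy (μ := μ) hc3 (fun a x => ?_) (conv_sy hA.cls hc hA.sy hs) fun x => ?_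
    · rw [cls_H4 hA.cls, h1]
    · rw [(hA.H4 (μ := μ)).sy, h2]

lemma adm_env (hZ : Adm Z) (j d : ℕ) : Adm (env μ Z j d) :=
  ⟨cont_env hZ j d, env_pos hZ d j, cls_env hZ d j, sy_env hZ d j⟩

/-- the partition function -/
lemma int_env (hZ : Adm Z) {n a : ℕ} (ha : a ≤ n) :
    ∫ x, TTn μ Z n x ∂μ = ∫ x, TTn μ Z a x * env μ Z a (n - a) x ∂μ := by
  have h1 := int_lifts (μ := μ) hZ (W := TTn μ Z) (fun j => (hZ.TTn j).cont) a (n - a)
    (fun i _ => (lft_self (μ := μ) (hZ.TTn i).cont).symm) (fun _ => 1) continuous_const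
  rw [env_eq, ← h1, Nat.add_sub_cancel' ha]
  simp only [mul_one]

/-- one insertion -/
lemma int_one (hZ : Adm Z) (hh : Continuous h) (hc : Cls h) {n a : ℕ} (ha : a ≤ n) (p : Pq n) :
    ∫ x, WF μ Z n (ins1 p h) x ∂μ = ∫ x, Dn μ Z h a x * env μ Z a (n - a) x ∂μ := by
  have h1 := int_lifts (μ := μ) hZ (W := Dn μ Z h) (fun j => cont_Dn hZ hh j) a (n - a)
    (fun i _ => Dn_succ hZ hh hc i) (fun _ => 1) continuous_const
  rw [env_eq, ← h1, Nat.add_sub_cancel' ha, WF_ins hZ hh hc]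
  simp only [mul_one]

lemma Ex_ins (hZ : Adm Z) {n : ℕ} {F : Pq n → G → ℝ} (hI : InsC F) :
    Ex μ Z n (fun U => ∏ p : Pq n, F p (hol U p)) =
      (∫ x, WF μ Z n F x ∂μ) / ∫ x, TTn μ Z n x ∂μ := by
  unfold Ex
  rw [part_eq hZ]
  congr 1
  have h1 := int_ZZ (μ := μ) (n := n) (w := fun p' x => Z x * F p' x)
    (fun p' => hZ.cont.mul (hI.c p')) (fun p' g x => by beta_reduce; rw [hZ.cls, hI.l p'])
  rw [WF, ← h1]
  refine integral_congr_ae (Eventually.of_forall fun U => ?_)
  beta_reduce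
  unfold wtt wt
  rw [Finset.prod_mul_distrib, mul_comm]

lemma Ex_one' (hZ : Adm Z) {n : ℕ} (p : Pq n) (hf : Continuous f) (hc : Cls f) :
    Ex μ Z n (fun U => f (hol U p)) = (∫ x, WF μ Z n (ins1 p f) x ∂μ) /
      ∫ x, TTn μ Z n x ∂μ := by
  rw [← Ex_ins hZ (insC_ins1 p hf hc)]
  simp only [prod_ins1]

lemma Ex_two' (hZ : Adm Z) {n : ℕ} (p q : Pq n) (hf : Continuous f) (hc : Cls f)
    (hg : Continuous g) (hgc : Cls g) :
    Ex μ Z n (fun U => f (hol U p) * g (hol U q)) =
      (∫ x, WF μ Z n (fun p' x => ins1 p f p' x * ins1 q g p' x) x ∂μ) /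
        ∫ x, TTn μ Z n x ∂μ := by
  rw [← Ex_ins hZ ((insC_ins1 p hf hc).mul (insC_ins1 q hg hgc))]
  simp only [Finset.prod_mul_distrib, prod_ins1]

/-- **The covariance formula** for two functions. -/
theorem Cv_formula (hZ : Adm Z) (hg : Continuous g) (hgc : Cls g) (hh : Continuous h)
    (hc : Cls h) {n : ℕ} (p q : Pq n) (hs : Sep p q) :
    Cv μ Z n p q g h = (1 / 16 : ℝ) ^ (2 * anc n p q) *
      cvr μ (TTn μ Z (anc n p q)) (dTn μ Z (fun x => g x * Z x) (anc n p q))
        (dTn μ Z (fun x => h x * Z x) (anc n p q)) (env μ Z (anc n p q) (n - anc n p q)) := by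
  set a := anc n p q with ha
  have hle : a ≤ n := anc_le p q
  have h2 := int_two (μ := μ) hZ hg hgc hh hc n p q hs (fun _ => 1) continuous_const
  simp only [mul_one] at h2
  rw [← ha, ← env_eq] at h2
  unfold Cv
  rw [Ex_two' hZ p q hg hgc hh hc, Ex_one' hZ p hg hgc, Ex_one' hZ q hh hc, h2,
    int_one hZ hg hgc hle p, int_one hZ hh hc hle q, int_env hZ hle]
  unfold cvr
  have e1 : ∫ x, Dn μ Z g a x * Dn μ Z h a x / TTn μ Z a x * env μ Z a (n - a) x ∂μ =
      (1 / 16 : ℝ) ^ (2 * a) * ∫ x, dTn μ Z (fun x => g x * Z x) a x *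
        dTn μ Z (fun x => h x * Z x) a x / TTn μ Z a x * env μ Z a (n - a) x ∂μ := by
    rw [← integral_const_mul]
    refine integral_congr_ae (Eventually.of_forall fun x => ?_)
    unfold Dn
    beta_reduce
    rw [two_mul, pow_add]
    ring
  have e2 : ∀ k : G → ℝ, ∫ x, Dn μ Z k a x * env μ Z a (n - a) x ∂μ =
      (1 / 16 : ℝ) ^ a * ∫ x, dTn μ Z (fun x => k x * Z x) a x * env μ Z a (n - a) x ∂μ := by
    intro k
    rw [← integral_const_mul]
    refine integral_congr_ae (Eventually.of_forall fun x => ?_)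
    unfold Dn
    beta_reduce
    ring
  rw [e1, e2 g, e2 h, two_mul, pow_add]
  ring

/-- **The covariance formula.** -/
theorem Cv_sep (hZ : Adm Z) (hh : Continuous h) (hc : Cls h) {n : ℕ} (p q : Pq n)
    (hs : Sep p q) : Cv μ Z n p q h h = (1 / 16 : ℝ) ^ (2 * anc n p q) *
      vr μ (TTn μ Z (anc n p q)) (dTn μ Z (fun x => h x * Z x) (anc n p q))
        (env μ Z (anc n p q) (n - anc n p q)) := by
  rw [Cv_formula hZ hh hc hh hc p q hs, cvr_self]

/-- the variance does not change when a multiple of the weight is subtracted -/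
lemma vr_shift (hf : Adm f) (hh : Continuous h) (hE : Continuous E) (hp : ∀ x, 0 < E x) (s : ℝ) :
    vr μ f (fun x => h x - s * f x) E = vr μ f h E := by
  have hI : 0 < ∫ z, f z * E z ∂μ :=
    int_pos (hf.cont.mul hE) fun x => mul_pos (hf.pos x) (hp x)
  set I := ∫ z, f z * E z ∂μ with hIdef
  have i1 : Integrable (fun z => h z * E z) μ := integrable_of_cont (hh.mul hE)
  have i2 : Integrable (fun z => f z * E z) μ := integrable_of_cont (hf.cont.mul hE)
  have i3 : Integrable (fun z => h z ^ 2 / f z * E z) μ :=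
    integrable_of_cont (((hh.pow 2).div hf.cont fun x => (hf.pos x).ne').mul hE)
  have e1 : ∫ z, (h z - s * f z) * E z ∂μ = (∫ z, h z * E z ∂μ) - s * I := by
    rw [hIdef, ← integral_const_mul, ← integral_sub i1 (i2.const_mul s)]
    refine integral_congr_ae (Eventually.of_forall fun z => ?_)
    beta_reduce
    ring
  have e2 : ∫ z, (h z - s * f z) ^ 2 / f z * E z ∂μ =
      (∫ z, h z ^ 2 / f z * E z ∂μ) - 2 * s * (∫ z, h z * E z ∂μ) + s ^ 2 * I := by
    have h1 : ∀ z, (h z - s * f z) ^ 2 / f z * E z =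
        (h z ^ 2 / f z * E z - 2 * s * (h z * E z)) + s ^ 2 * (f z * E z) := by
      intro z
      have := (hf.pos z).ne'
      field_simp
      ring
    have i4 : Integrable (fun z => h z ^ 2 / f z * E z - 2 * s * (h z * E z)) μ :=
      i3.sub (i1.const_mul _)
    simp only [h1]
    rw [integral_add i4 (i2.const_mul _),
      integral_sub i3 (i1.const_mul _), integral_const_mul, integral_const_mul]
  unfold vr
  rw [← hIdef, e1, e2]
  field_simp
  ring

/-- **The covariance formula with the renormalised field.** -/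
theorem Cv_evo (hZ : Adm Z) (hh : Continuous h) (hc : Cls h) {n : ℕ} (p q : Pq n)
    (hs : Sep p q) : Cv μ Z n p q h h = (1 / 16 : ℝ) ^ (2 * anc n p q) *
      vr μ (TTn μ Z (anc n p q)) (fun x => evo μ Z h (anc n p q) x * TTn μ Z (anc n p q) x)
        (env μ Z (anc n p q) (n - anc n p q)) := by
  rw [Cv_sep hZ hh hc p q hs]
  have hA := hZ.TTn (μ := μ) (anc n p q)
  have h1 : (fun x => evo μ Z h (anc n p q) x * TTn μ Z (anc n p q) x) = fun x =>
      dTn μ Z (fun x => h x * Z x) (anc n p q) x -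
        dTn μ Z (fun x => h x * Z x) (anc n p q) 1 / TTn μ Z (anc n p q) 1 *
          TTn μ Z (anc n p q) x := fld_mul hA.pos _
  rw [h1, vr_shift hA (cont_dTn hZ.cont (cont_hZ hZ hh) _) (cont_env hZ _ _) (env_pos hZ _ _)]

/-- the variance is not negative -/
lemma vr_nonneg (hf : Adm f) (hh : Continuous h) (hE : Continuous E) (hp : ∀ x, 0 < E x) :
    0 ≤ vr μ f h E := by
  have hI : 0 < ∫ z, f z * E z ∂μ :=
    int_pos (hf.cont.mul hE) fun x => mul_pos (hf.pos x) (hp x)
  set s := (∫ z, h z * E z ∂μ) / ∫ z, f z * E z ∂μ with hs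
  rw [← vr_shift hf hh hE hp s]
  have i1 : Integrable (fun z => h z * E z) μ := integrable_of_cont (hh.mul hE)
  have i2 : Integrable (fun z => f z * E z) μ := integrable_of_cont (hf.cont.mul hE)
  have e1 : ∫ z, (h z - s * f z) * E z ∂μ = 0 := by
    have h1 : ∫ z, (h z - s * f z) * E z ∂μ = (∫ z, h z * E z ∂μ) - s * ∫ z, f z * E z ∂μ := by
      rw [← integral_const_mul, ← integral_sub i1 (i2.const_mul s)]
      refine integral_congr_ae (Eventually.of_forall fun z => ?_)
      beta_reduce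
      ring
    rw [h1, hs, div_mul_cancel₀ _ hI.ne', sub_self]
  unfold vr
  rw [e1, zero_div, zero_pow two_ne_zero, sub_zero]
  refine div_nonneg (integral_nonneg fun z => ?_) hI.le
  exact mul_nonneg (div_nonneg (sq_nonneg _) (hf.pos z).le) (hp z).le

/-- **Positivity** of the two-point function. -/
theorem Cv_nonneg (hZ : Adm Z) (hh : Continuous h) (hc : Cls h) {n : ℕ} (p q : Pq n)
    (hs : Sep p q) : 0 ≤ Cv μ Z n p q h h := by
  rw [Cv_sep hZ hh hc p q hs]
  exact mul_nonneg (by positivity) (vr_nonneg (hZ.TTn _) (cont_dTn hZ.cont (cont_hZ hZ hh) _)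
    (cont_env hZ _ _) (env_pos hZ _ _))

end

end Pool.Agent.N838.T3
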