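import Mathlib
import Pool.Agent.N838.T3.CovF
import Pool.Agent.N453.MK.Var
import Pool.Agent.N565.MK.Env2

/-!
# The covariance formula in the notation of the estimates
-/

open MeasureTheory Pool.Agent.N991.MK Pool.Agent.N989.MK Pool.Agent.N681.MK Filter
open Pool.Agent.N109.T3

namespace Pool.Agent.N838.T3

set_option linter.unusedSectionVars false

noncomputable section

section general

variable {G : Type*} [Group G] [TopologicalSpace G] [IsTopologicalGroup G] [CompactSpace G]
  [MeasurableSpace G] [BorelSpace G] [SecondCountableTopology G]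
  {μ : Measure G} [IsProbabilityMeasure μ] [μ.IsHaarMeasure] [μ.IsMulRightInvariant]
  [μ.IsInvInvariant]

lemma envS_same (f E : G → ℝ) : envS μ f E = Pool.Agent.N565.MK.envS μ f E := rfl

lemma env_same (w : G → ℝ) : ∀ (d j : ℕ), env μ w j d = Pool.Agent.N565.MK.env μ w j d
  | 0, _ => rfl
  | d + 1, j => by
    change envS μ (TTn μ w j) (env μ w (j + 1) d) =
      Pool.Agent.N565.MK.envS μ (TTn μ w j) (Pool.Agent.N565.MK.env μ w (j + 1) d)
    rw [env_same w d (j + 1)]
    rfl

end general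

variable {N : ℕ} {G : Subgroup (Pool.Agent.H906R3.YM.UN N)} [CompactSpace G] [MeasurableSpace G]
  [BorelSpace G]
  {μ : Measure G} [IsProbabilityMeasure μ] [μ.IsHaarMeasure] [μ.IsMulRightInvariant]
  [μ.IsInvInvariant]

/-- **The covariance formula** with the variance of `N453/MK/Var` and the environment of
`N565/MK/Env2`. -/
theorem Cv_evo16 {Z h : G → ℝ} (hZ : Adm Z) (hh : Continuous h) (hc : Cls h) {n : ℕ} (p q : Pq n)
    (hs : Sep p q) : (16 : ℝ) ^ (2 * anc n p q) * Cv μ Z n p q h h =
      Pool.Agent.N453.MK.vr μ (TTn μ Z (anc n p q))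
        (fun x => evo μ Z h (anc n p q) x * TTn μ Z (anc n p q) x)
        (Pool.Agent.N565.MK.env μ Z (anc n p q) (n - anc n p q)) := by
  rw [Cv_evo hZ hh hc p q hs, ← env_same, ← mul_assoc, ← mul_pow]
  norm_num
  rfl

theorem Cv_sep16 {Z h : G → ℝ} (hZ : Adm Z) (hh : Continuous h) (hc : Cls h) {n : ℕ} (p q : Pq n)
    (hs : Sep p q) : (16 : ℝ) ^ (2 * anc n p q) * Cv μ Z n p q h h =
      Pool.Agent.N453.MK.vr μ (TTn μ Z (anc n p q))
        (dTn μ Z (fun x => h x * Z x) (anc n p q))
        (Pool.Agent.N565.MK.env μ Z (anc n p q) (n - anc n p q)) := by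
  rw [Cv_sep hZ hh hc p q hs, ← env_same, ← mul_assoc, ← mul_pow]
  norm_num
  rfl

end

end Pool.Agent.N838.T3
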