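import Mathlib

/-!
# The standard Gaussian measure of a Euclidean space has the expected density
-/

open MeasureTheory ProbabilityTheory Module
open scoped RealInnerProductSpace

namespace Pool.Agent.N838.T3

noncomputable section

variable {V : Type*} [NormedAddCommGroup V] [InnerProductSpace ℝ V] [FiniteDimensional ℝ V]
  [MeasurableSpace V] [BorelSpace V]

theorem cexp_gauss (t : V) : ∫ v : V, Complex.exp (-(1 / 2 : ℂ) * ‖v‖ ^ 2 + Complex.I * ⟪t, v⟫) =
    (2 * Real.pi : ℂ) ^ (finrank ℝ V / 2 : ℂ) * Complex.exp (-‖t‖ ^ 2 / 2) := by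
  have h := GaussianFourier.integral_cexp_neg_mul_sq_norm_add (V := V) (b := 1 / 2)
    (by norm_num) Complex.I t
  rw [h]
  congr 2
  · ring
  · rw [Complex.I_sq]
    ring

theorem integrable_gauss : Integrable (fun v : V => Real.exp (-‖v‖ ^ 2 / 2)) := by
  have h := GaussianFourier.integrable_cexp_neg_mul_sq_norm_add (V := V) (b := 1 / 2)
    (by norm_num) 0 0
  have h2 := h.norm
  refine h2.congr (Filter.Eventually.of_forall fun v => ?_)
  simp only [zero_mul, add_zero]
  rw [Complex.norm_exp]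
  congr 1
  have : (-(1 / 2 : ℂ) * (‖v‖ : ℂ) ^ 2) = ((-‖v‖ ^ 2 / 2 : ℝ) : ℂ) := by
    push_cast
    ring
  rw [this, Complex.ofReal_re]

/-- The normalisation. -/
def gK (V : Type*) [NormedAddCommGroup V] [InnerProductSpace ℝ V] [MeasurableSpace V]
    [FiniteDimensional ℝ V] [BorelSpace V] : ℝ :=
  ∫ v : V, Real.exp (-‖v‖ ^ 2 / 2)

theorem gK_pos : 0 < gK V := by
  unfold gK
  rw [integral_pos_iff_support_of_nonneg (fun v => (Real.exp_pos _).le) integrable_gauss]
  have : Function.support (fun v : V => Real.exp (-‖v‖ ^ 2 / 2)) = Set.univ := by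
    ext v
    simp [(Real.exp_pos _).ne']
  rw [this]
  exact Measure.measure_univ_pos.2 (NeZero.ne _)

theorem gK_eq : ((gK V : ℝ) : ℂ) = (2 * Real.pi : ℂ) ^ (finrank ℝ V / 2 : ℂ) := by
  have h := cexp_gauss (V := V) 0
  simp only [inner_zero_left, Complex.ofReal_zero, mul_zero, add_zero, norm_zero] at h
  unfold gK
  rw [← integral_complex_ofReal]
  have h2 : ∀ v : V, ((Real.exp (-‖v‖ ^ 2 / 2) : ℝ) : ℂ) =
      Complex.exp (-(1 / 2 : ℂ) * ‖v‖ ^ 2) := by
    intro v
    rw [Complex.ofReal_exp]
    congr 1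
    push_cast
    ring
  simp only [h2]
  rw [h]
  simp

/-- The Gaussian density. -/
theorem withDensity_gauss : (volume : Measure V).withDensity
    (fun v => ENNReal.ofReal (Real.exp (-‖v‖ ^ 2 / 2))) =
      ENNReal.ofReal (gK V) • stdGaussian V := by
  have hfin : IsFiniteMeasure ((volume : Measure V).withDensity
      (fun v => ENNReal.ofReal (Real.exp (-‖v‖ ^ 2 / 2)))) :=
    isFiniteMeasure_withDensity_ofReal integrable_gauss.2
  have hfin2 : IsFiniteMeasure (ENNReal.ofReal (gK V) • stdGaussian V) :=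
    Measure.smul_finite _ ENNReal.ofReal_ne_top
  apply Measure.ext_of_charFun
  funext t
  rw [charFun_apply, integral_withDensity_eq_integral_toReal_smul (by fun_prop)
    (Filter.Eventually.of_forall fun v => ENNReal.ofReal_lt_top)]
  have h1 : ∀ v : V, (ENNReal.ofReal (Real.exp (-‖v‖ ^ 2 / 2))).toReal •
      Complex.exp (⟪v, t⟫ * Complex.I) =
      Complex.exp (-(1 / 2 : ℂ) * ‖v‖ ^ 2 + Complex.I * ⟪t, v⟫) := by
    intro v
    rw [ENNReal.toReal_ofReal (Real.exp_pos _).le, Complex.exp_add, Complex.real_smul,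
      Complex.ofReal_exp, real_inner_comm v t]
    congr 2
    · push_cast
      ring
    · ring
  simp only [h1]
  rw [cexp_gauss, ← gK_eq, charFun_apply, integral_smul_measure, ← charFun_apply,
    charFun_stdGaussian, ENNReal.toReal_ofReal gK_pos.le, Complex.real_smul]

theorem integral_stdGaussian (H : V → ℝ) :
    ∫ v, Real.exp (-‖v‖ ^ 2 / 2) * H v = gK V * ∫ v, H v ∂(stdGaussian V) := by
  have h := integral_withDensity_eq_integral_toReal_smul
    (μ := (volume : Measure V)) (f := fun v => ENNReal.ofReal (Real.exp (-‖v‖ ^ 2 / 2)))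
    (by fun_prop) (Filter.Eventually.of_forall fun v => ENNReal.ofReal_lt_top) H
  rw [withDensity_gauss, integral_smul_measure, ENNReal.toReal_ofReal gK_pos.le, smul_eq_mul] at h
  rw [h]
  refine integral_congr_ae (Filter.Eventually.of_forall fun v => ?_)
  simp only [smul_eq_mul]
  rw [ENNReal.toReal_ofReal (Real.exp_pos _).le]

/-- The volume of a Euclidean space. -/
def vl (V : Type*) [NormedAddCommGroup V] [InnerProductSpace ℝ V] [MeasurableSpace V]
    [FiniteDimensional ℝ V] [BorelSpace V] : Measure V := volume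

instance vl_haar : (vl V).IsAddHaarMeasure := by
  unfold vl
  infer_instance

theorem integral_stdGaussian_vl (H : V → ℝ) :
    ∫ v, Real.exp (-‖v‖ ^ 2 / 2) * H v ∂(vl V) = gK V * ∫ v, H v ∂(stdGaussian V) :=
  integral_stdGaussian H

end

end Pool.Agent.N838.T3
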