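import Mathlib

/-!
# Integrals over the closed fields (free theory of the project T3)

Functionals of families of weights which are integrals over linear spaces of fields, and their
behaviour under convolutions and products.
-/

open MeasureTheory

namespace Pool.Agent.N838.T3

noncomputable section

variable {n : ℕ}

/-- rapidly decreasing measurable functions -/
structure Rap (w : (Fin n → ℝ) → ℝ) : Prop where
  meas : Measurable w
  dec : ∀ r : ℕ, ∃ C : ℝ, ∀ x, |w x| ≤ C * ((1 + ‖x‖) ^ r)⁻¹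

theorem one_add_norm_le_prod {J : Type} [Fintype J] (v : J → Fin n → ℝ) :
    1 + ‖v‖ ≤ ∏ q, (1 + ‖v q‖) := by
  classical
  have h1 : ∀ s : Finset J, 1 ≤ ∏ q ∈ s, (1 + ‖v q‖) := fun s => by
    have h : ∏ q ∈ s, (1 : ℝ) ≤ ∏ q ∈ s, (1 + ‖v q‖) :=
      Finset.prod_le_prod (fun _ _ => zero_le_one) fun q _ => by
        have := norm_nonneg (v q); linarith
    simpa using h
  have h2 : ‖v‖ ≤ (∏ q, (1 + ‖v q‖)) - 1 := by
    refine (pi_norm_le_iff_of_nonneg (by have := h1 Finset.univ; linarith)).2 fun q => ?_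
    rw [← Finset.mul_prod_erase Finset.univ _ (Finset.mem_univ q)]
    have h3 := h1 (Finset.univ.erase q)
    have h4 := norm_nonneg (v q)
    nlinarith
  linarith

/-- Products of rapidly decreasing functions of an injective affine map are integrable. -/
theorem integrable_prod_rap {P : Type} [NormedAddCommGroup P] [NormedSpace ℝ P]
    [FiniteDimensional ℝ P] [MeasurableSpace P] [BorelSpace P] (ν : Measure P)
    [ν.IsAddHaarMeasure] {J : Type} [Fintype J] (Λ : P →ₗ[ℝ] (J → Fin n → ℝ))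
    (hΛ : Function.Injective Λ) (a : J → Fin n → ℝ) (w : J → (Fin n → ℝ) → ℝ)
    (hw : ∀ q, Rap (w q)) : Integrable (fun z => ∏ q, w q (Λ z q + a q)) ν := by
  classical
  obtain ⟨K, hK0, hK⟩ := Λ.exists_antilipschitzWith (LinearMap.ker_eq_bot.2 hΛ)
  set r : ℕ := Module.finrank ℝ P + 1 with hr
  choose C hC using fun q => (hw q).dec r
  have hΛc : Continuous Λ := LinearMap.continuous_of_finiteDimensional Λ
  set M : ℝ := 1 + K + K * ‖a‖ with hM
  have hMpos : 0 < M := by positivity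
  have hint : Integrable (fun z : P => (1 + ‖z‖) ^ (-(r : ℝ))) ν :=
    integrable_one_add_norm (by rw [hr]; push_cast; linarith)
  have hint2 : Integrable (fun z : P => ((∏ q, |C q|) * M ^ r) * (1 + ‖z‖) ^ (-(r : ℝ))) ν :=
    hint.const_mul _
  refine hint2.mono' ?_ (Filter.Eventually.of_forall fun z => ?_)
  · refine Measurable.aestronglyMeasurable ?_
    refine Finset.measurable_prod _ fun q _ => (hw q).meas.comp ?_
    exact (((continuous_apply q).comp hΛc).add continuous_const).measurable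
  · rw [Real.norm_eq_abs, Finset.abs_prod]
    have hz0 : (0 : ℝ) < 1 + ‖z‖ := by positivity
    have h1 : ∏ q, |w q (Λ z q + a q)| ≤ ∏ q, (|C q| * ((1 + ‖Λ z q + a q‖) ^ r)⁻¹) := by
      refine Finset.prod_le_prod (fun q _ => abs_nonneg _) fun q _ => (hC q _).trans ?_
      refine mul_le_mul_of_nonneg_right (le_abs_self _) (by positivity)
    refine h1.trans ?_
    rw [Finset.prod_mul_distrib, mul_assoc]
    refine mul_le_mul_of_nonneg_left ?_ (Finset.prod_nonneg fun q _ => abs_nonneg _)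
    rw [Finset.prod_inv_distrib, Finset.prod_pow]
    have h2 : 1 + ‖Λ z + a‖ ≤ ∏ q, (1 + ‖Λ z q + a q‖) := one_add_norm_le_prod (Λ z + a)
    have h3 : ‖z‖ ≤ K * ‖Λ z‖ := by
      have := hK.le_mul_dist z 0
      simpa [dist_eq_norm] using this
    have h4 : ‖Λ z‖ ≤ ‖Λ z + a‖ + ‖a‖ := by
      calc ‖Λ z‖ = ‖(Λ z + a) - a‖ := by simp
        _ ≤ _ := norm_sub_le _ _
    have h5 : 1 + ‖z‖ ≤ M * ∏ q, (1 + ‖Λ z q + a q‖) := by
      have hk : (0 : ℝ) ≤ K := K.2
      have h6 : 1 + ‖z‖ ≤ M * (1 + ‖Λ z + a‖) := by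
        rw [hM]
        have hs := norm_nonneg (Λ z + a)
        have ha := norm_nonneg a
        nlinarith [mul_nonneg hk ha, mul_nonneg (mul_nonneg hk ha) hs,
          mul_le_mul_of_nonneg_left h4 hk]
      exact h6.trans (mul_le_mul_of_nonneg_left h2 hMpos.le)
    have h7 : (0 : ℝ) < ∏ q, (1 + ‖Λ z q + a q‖) :=
      Finset.prod_pos fun q _ => by positivity
    rw [Real.rpow_neg hz0.le, Real.rpow_natCast, ← div_eq_mul_inv, inv_eq_one_div,
      div_le_div_iff₀ (pow_pos h7 r) (pow_pos hz0 r), one_mul, ← mul_pow]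
    exact pow_le_pow_left₀ hz0.le h5 r

/-- The convolution. -/
def cv (f g : (Fin n → ℝ) → ℝ) (x : Fin n → ℝ) : ℝ := ∫ y, f y * g (x - y)

/-- `Z` is, for rapidly decreasing weights, the integral over the space `Cl` of fields, sliced by
the flux `fl`. -/
def Rep {J : Type} [Fintype J] (Z : (J → (Fin n → ℝ) → ℝ) → (Fin n → ℝ) → ℝ)
    (fl : (J → Fin n → ℝ) →ₗ[ℝ] (Fin n → ℝ)) (Cl : Set (J → Fin n → ℝ)) : Prop :=
  ∃ (P : Type) (_ : NormedAddCommGroup P) (_ : NormedSpace ℝ P) (_ : FiniteDimensional ℝ P)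
    (_ : MeasurableSpace P) (_ : BorelSpace P) (ν : Measure P) (_ : ν.IsAddHaarMeasure)
    (Φ : ((Fin n → ℝ) × P) →ₗ[ℝ] (J → Fin n → ℝ)),
    Function.Injective Φ ∧ (∀ Y, Y ∈ Cl ↔ ∃ z, Φ z = Y) ∧ (∀ z, fl (Φ z) = z.1) ∧
    ∀ w : J → (Fin n → ℝ) → ℝ, (∀ q, Rap (w q)) → ∀ x, Z w x = ∫ t, ∏ q, w q (Φ (x, t) q) ∂ν

theorem Rep.base : Rep (n := n) (J := Unit) (fun w => w ()) (LinearMap.proj ()) Set.univ := by
  refine ⟨Fin 0 → ℝ, inferInstance, inferInstance, inferInstance, inferInstance, inferInstance,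
    volume, inferInstance,
    LinearMap.pi (fun _ : Unit => LinearMap.fst ℝ (Fin n → ℝ) (Fin 0 → ℝ)), ?_, ?_, ?_, ?_⟩
  · intro z z' h
    have h1 := congrFun h ()
    exact Prod.ext h1 (Subsingleton.elim _ _)
  · intro Y
    refine ⟨fun _ => ⟨(Y (), 0), ?_⟩, fun _ => Set.mem_univ _⟩
    funext q
    rfl
  · intro z
    rfl
  · intro w _ x
    have h : (fun t : Fin 0 → ℝ => ∏ q : Unit, w q
        ((LinearMap.pi (fun _ : Unit => LinearMap.fst ℝ (Fin n → ℝ) (Fin 0 → ℝ))) (x, t) q)) =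
        fun _ => w () x := by
      funext t
      simp
    rw [h, integral_const]
    simp [measureReal_def, volume_pi]

theorem Rep.conv {J J' : Type} [Fintype J] [Fintype J']
    {Z : (J → (Fin n → ℝ) → ℝ) → (Fin n → ℝ) → ℝ} {fl : (J → Fin n → ℝ) →ₗ[ℝ] (Fin n → ℝ)}
    {Cl : Set (J → Fin n → ℝ)} (h : Rep Z fl Cl)
    {Z' : (J' → (Fin n → ℝ) → ℝ) → (Fin n → ℝ) → ℝ} {fl' : (J' → Fin n → ℝ) →ₗ[ℝ] (Fin n → ℝ)}
    {Cl' : Set (J' → Fin n → ℝ)} (h' : Rep Z' fl' Cl') :
    Rep (J := J ⊕ J') (fun w => cv (Z fun q => w (.inl q)) (Z' fun q => w (.inr q)))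
      (fl ∘ₗ LinearMap.funLeft ℝ (Fin n → ℝ) Sum.inl + fl' ∘ₗ LinearMap.funLeft ℝ (Fin n → ℝ) Sum.inr)
      {Y | (fun q => Y (.inl q)) ∈ Cl ∧ (fun q => Y (.inr q)) ∈ Cl'} := by
  obtain ⟨P, i1, i2, i3, i4, i5, ν, i6, Φ, hinj, hran, hfl, hZ⟩ := h
  obtain ⟨P', j1, j2, j3, j4, j5, ν', j6, Φ', hinj', hran', hfl', hZ'⟩ := h'
  -- the new map
  let Ψ : ((Fin n → ℝ) × ((Fin n → ℝ) × (P × P'))) →ₗ[ℝ] (J ⊕ J' → Fin n → ℝ) :=
    { toFun := fun z => Sum.elim (Φ (z.2.1, z.2.2.1)) (Φ' (z.1 - z.2.1, z.2.2.2))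
      map_add' := by
        intro z z'
        funext q
        rcases q with q | q
        · have := congrFun (Φ.map_add (z.2.1, z.2.2.1) (z'.2.1, z'.2.2.1)) q
          simpa using this
        · have := congrFun (Φ'.map_add (z.1 - z.2.1, z.2.2.2) (z'.1 - z'.2.1, z'.2.2.2)) q
          have e : z.1 + z'.1 - (z.2.1 + z'.2.1) = z.1 - z.2.1 + (z'.1 - z'.2.1) := by abel
          simp only [Prod.mk_add_mk] at this
          simp only [Prod.fst_add, Prod.snd_add, Sum.elim_inr, Pi.add_apply]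
          rw [e]
          exact this
      map_smul' := by
        intro c z
        funext q
        rcases q with q | q
        · have := congrFun (Φ.map_smul c (z.2.1, z.2.2.1)) q
          simpa using this
        · have := congrFun (Φ'.map_smul c (z.1 - z.2.1, z.2.2.2)) q
          simp only [Prod.smul_mk] at this
          simp only [Prod.smul_fst, Prod.smul_snd, Sum.elim_inr, Pi.smul_apply, RingHom.id_apply]
          rw [← smul_sub]
          exact this }
  have hΨ : ∀ z, Ψ z = Sum.elim (Φ (z.2.1, z.2.2.1)) (Φ' (z.1 - z.2.1, z.2.2.2)) := fun z => rfl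
  have hΨinj : Function.Injective Ψ := by
    intro z z' hzz
    have h1 : Φ (z.2.1, z.2.2.1) = Φ (z'.2.1, z'.2.2.1) := by
      funext q
      exact congrFun hzz (.inl q)
    have h2 : Φ' (z.1 - z.2.1, z.2.2.2) = Φ' (z'.1 - z'.2.1, z'.2.2.2) := by
      funext q
      exact congrFun hzz (.inr q)
    have h3 := Prod.mk.inj (hinj h1)
    have h4 := Prod.mk.inj (hinj' h2)
    have h5 : z.1 = z'.1 := by
      have := h4.1
      rw [h3.1] at this
      exact sub_left_injective this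
    exact Prod.ext h5 (Prod.ext h3.1 (Prod.ext h3.2 h4.2))
  have k1 : (ν.prod ν').IsAddHaarMeasure := inferInstance
  have k2 : SigmaFinite (ν.prod ν') := inferInstance
  have k3 : ((volume : Measure (Fin n → ℝ)).prod (ν.prod ν')).IsAddHaarMeasure :=
    Measure.prod.instIsAddHaarMeasure _ _
  refine ⟨(Fin n → ℝ) × (P × P'), inferInstance, inferInstance, inferInstance, inferInstance,
    inferInstance, volume.prod (ν.prod ν'), k3, Ψ, hΨinj, ?_, ?_, ?_⟩
  · intro Y
    constructor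
    · rintro ⟨h1, h2⟩
      obtain ⟨z, hz⟩ := (hran _).1 h1
      obtain ⟨z', hz'⟩ := (hran' _).1 h2
      refine ⟨(z.1 + z'.1, (z.1, (z.2, z'.2))), ?_⟩
      funext q
      rcases q with q | q
      · exact congrFun hz q
      · have : Φ' (z.1 + z'.1 - z.1, z'.2) q = Y (.inr q) := by
          rw [add_sub_cancel_left]
          exact congrFun hz' q
        exact this
    · rintro ⟨z, rfl⟩
      exact ⟨(hran _).2 ⟨(z.2.1, z.2.2.1), rfl⟩, (hran' _).2 ⟨(z.1 - z.2.1, z.2.2.2), rfl⟩⟩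
  · intro z
    have h1 : LinearMap.funLeft ℝ (Fin n → ℝ) Sum.inl (Ψ z) = Φ (z.2.1, z.2.2.1) := by
      funext q
      rfl
    have h2 : LinearMap.funLeft ℝ (Fin n → ℝ) Sum.inr (Ψ z) = Φ' (z.1 - z.2.1, z.2.2.2) := by
      funext q
      rfl
    rw [LinearMap.add_apply, LinearMap.comp_apply, LinearMap.comp_apply, h1, h2, hfl, hfl']
    simp
  · intro w hw x
    have hsl : Function.Injective (Ψ ∘ₗ LinearMap.inr ℝ (Fin n → ℝ) ((Fin n → ℝ) × (P × P'))) :=
      hΨinj.comp (fun a b hab => (Prod.mk.inj hab).2)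
    have hI := integrable_prod_rap (volume.prod (ν.prod ν'))
      (Ψ ∘ₗ LinearMap.inr ℝ (Fin n → ℝ) ((Fin n → ℝ) × (P × P'))) hsl (Ψ (x, 0)) w hw
    have he : ∀ z : (Fin n → ℝ) × (P × P'),
        (Ψ ∘ₗ LinearMap.inr ℝ (Fin n → ℝ) ((Fin n → ℝ) × (P × P'))) z + Ψ (x, 0) = Ψ (x, z) := by
      intro z
      rw [LinearMap.comp_apply, LinearMap.inr_apply, ← map_add]
      simp
    have he' : ∀ (z : (Fin n → ℝ) × (P × P')) q,
        (Ψ ∘ₗ LinearMap.inr ℝ (Fin n → ℝ) ((Fin n → ℝ) × (P × P'))) z q + Ψ (x, 0) q =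
          Ψ (x, z) q := fun z q => congrFun (he z) q
    simp only [he'] at hI
    have hprod : ∀ z : (Fin n → ℝ) × (P × P'), ∏ q, w q (Ψ (x, z) q) =
        (∏ q, w (.inl q) (Φ (z.1, z.2.1) q)) * ∏ q, w (.inr q) (Φ' (x - z.1, z.2.2) q) := by
      intro z
      rw [Fintype.prod_sum_type]
      rfl
    simp only [hprod] at hI ⊢
    rw [integral_prod _ hI]
    unfold cv
    refine integral_congr_ae (Filter.Eventually.of_forall fun y => ?_)
    have hA := hZ (fun q => w (.inl q)) (fun q => hw _) y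
    have hB := hZ' (fun q => w (.inr q)) (fun q => hw _) (x - y)
    simp only [hA, hB]
    exact (integral_prod_mul (fun t => ∏ q, w (.inl q) (Φ (y, t) q))
      (fun t' => ∏ q, w (.inr q) (Φ' (x - y, t') q))).symm

/-- Change of the index set. -/
theorem Rep.reindex {J J' : Type} [Fintype J] [Fintype J'] (e : J ≃ J')
    {Z : (J → (Fin n → ℝ) → ℝ) → (Fin n → ℝ) → ℝ} {fl : (J → Fin n → ℝ) →ₗ[ℝ] (Fin n → ℝ)}
    {Cl : Set (J → Fin n → ℝ)} (h : Rep Z fl Cl) :
    Rep (J := J') (fun w => Z fun q => w (e q)) (fl ∘ₗ LinearMap.funLeft ℝ (Fin n → ℝ) e)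
      {Y | (fun q => Y (e q)) ∈ Cl} := by
  obtain ⟨P, i1, i2, i3, i4, i5, ν, i6, Φ, hinj, hran, hfl, hZ⟩ := h
  refine ⟨P, i1, i2, i3, i4, i5, ν, i6, LinearMap.funLeft ℝ (Fin n → ℝ) e.symm ∘ₗ Φ, ?_, ?_, ?_, ?_⟩
  · intro z z' hzz
    apply hinj
    funext q
    have := congrFun hzz (e q)
    simpa [LinearMap.funLeft_apply] using this
  · intro Y
    constructor
    · intro hY
      obtain ⟨z, hz⟩ := (hran _).1 hY
      refine ⟨z, ?_⟩
      funext q
      have := congrFun hz (e.symm q)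
      simpa [LinearMap.funLeft_apply] using this
    · rintro ⟨z, rfl⟩
      refine (hran _).2 ⟨z, ?_⟩
      funext q
      simp [LinearMap.funLeft_apply]
  · intro z
    have : LinearMap.funLeft ℝ (Fin n → ℝ) e
        ((LinearMap.funLeft ℝ (Fin n → ℝ) e.symm ∘ₗ Φ) z) = Φ z := by
      funext q
      simp [LinearMap.funLeft_apply]
    rw [LinearMap.comp_apply, this, hfl]
  · intro w hw x
    refine (hZ (fun q => w (e q)) (fun q => hw _) x).trans ?_
    refine integral_congr_ae (Filter.Eventually.of_forall fun t => ?_)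
    refine Fintype.prod_equiv e _ _ fun q => ?_
    simp [LinearMap.funLeft_apply]

/-- Products of four copies over the same flux. -/
theorem Rep.prod4 {J : Type} [Fintype J]
    {Z : (J → (Fin n → ℝ) → ℝ) → (Fin n → ℝ) → ℝ} {fl : (J → Fin n → ℝ) →ₗ[ℝ] (Fin n → ℝ)}
    {Cl : Set (J → Fin n → ℝ)} (h : Rep Z fl Cl) :
    Rep (J := Fin 4 × J) (fun w x => ∏ s : Fin 4, Z (fun q => w (s, q)) x)
      (fl ∘ₗ LinearMap.funLeft ℝ (Fin n → ℝ) (fun q => ((0 : Fin 4), q)))
      {Y | ∀ s, (fun q => Y (s, q)) ∈ Cl ∧ fl (fun q => Y (s, q)) = fl fun q => Y (0, q)} := by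
  obtain ⟨P, i1, i2, i3, i4, i5, ν, i6, Φ, hinj, hran, hfl, hZ⟩ := h
  let Ψ : ((Fin n → ℝ) × (Fin 4 → P)) →ₗ[ℝ] (Fin 4 × J → Fin n → ℝ) :=
    { toFun := fun z q => Φ (z.1, z.2 q.1) q.2
      map_add' := by
        intro z z'
        funext q
        exact congrFun (Φ.map_add (z.1, z.2 q.1) (z'.1, z'.2 q.1)) q.2
      map_smul' := by
        intro c z
        funext q
        exact congrFun (Φ.map_smul c (z.1, z.2 q.1)) q.2 }
  have hΨ : ∀ z s, (fun q => Ψ z (s, q)) = Φ (z.1, z.2 s) := fun z s => rfl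
  have k1 : (Measure.pi fun _ : Fin 4 => ν).IsAddHaarMeasure := inferInstance
  refine ⟨Fin 4 → P, inferInstance, inferInstance, inferInstance, inferInstance,
    inferInstance, Measure.pi fun _ => ν, k1, Ψ, ?_, ?_, ?_, ?_⟩
  · intro z z' hzz
    have h1 : ∀ s, Φ (z.1, z.2 s) = Φ (z'.1, z'.2 s) := by
      intro s
      rw [← hΨ, ← hΨ, hzz]
    refine Prod.ext (Prod.mk.inj (hinj (h1 0))).1 ?_
    funext s
    exact (Prod.mk.inj (hinj (h1 s))).2
  · intro Y
    constructor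
    · intro hY
      choose z hz using fun s => (hran _).1 (hY s).1
      have h1 : ∀ s, (z s).1 = (z 0).1 := by
        intro s
        have := (hY s).2
        rw [← hz s, ← hz 0, hfl, hfl] at this
        exact this
      refine ⟨((z 0).1, fun s => (z s).2), ?_⟩
      funext q
      have h2 : Φ ((z 0).1, (z q.1).2) = Φ (z q.1) := by
        rw [← h1 q.1]
      have h3 : Ψ ((z 0).1, fun s => (z s).2) q = Φ ((z 0).1, (z q.1).2) q.2 := rfl
      rw [h3, h2, hz q.1]
    · rintro ⟨z, rfl⟩ s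
      refine ⟨(hran _).2 ⟨(z.1, z.2 s), (hΨ z s).symm⟩, ?_⟩
      rw [hΨ, hΨ, hfl, hfl]
  · intro z
    have : LinearMap.funLeft ℝ (Fin n → ℝ) (fun q : J => ((0 : Fin 4), q)) (Ψ z) =
        Φ (z.1, z.2 0) := rfl
    rw [LinearMap.comp_apply, this, hfl]
  · intro w hw x
    have h1 : ∀ s : Fin 4, Z (fun q => w (s, q)) x = ∫ t, ∏ q, w (s, q) (Φ (x, t) q) ∂ν :=
      fun s => hZ _ (fun q => hw _) x
    simp only [h1]
    rw [← integral_fintype_prod_eq_prod (μ := fun _ : Fin 4 => ν)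
      (fun s t => ∏ q, w (s, q) (Φ (x, t) q))]
    refine integral_congr_ae (Filter.Eventually.of_forall fun t => ?_)
    simp only
    rw [Fintype.prod_prod_type]
    rfl

/-- The four quarters. -/
def quart (J : Type) : (J ⊕ J) ⊕ (J ⊕ J) ≃ Fin 4 × J where
  toFun := Sum.elim (Sum.elim (fun q => (0, q)) (fun q => (1, q)))
    (Sum.elim (fun q => (2, q)) (fun q => (3, q)))
  invFun := fun z => match z with
    | (0, q) => .inl (.inl q)
    | (1, q) => .inl (.inr q)
    | (2, q) => .inr (.inl q)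
    | (3, q) => .inr (.inr q)
  left_inv := by
    rintro ((q | q) | (q | q)) <;> rfl
  right_inv := by
    rintro ⟨s, q⟩
    fin_cases s <;> rfl

end

end Pool.Agent.N838.T3
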