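import Mathlib
import Pool.Agent.N838.T3.FreeRep
import Pool.Agent.N565.MK.Top
import Pool.Agent.N109.T3.Sc
import Pool.Agent.N109.T3.FreeDefs

/-!
# The partition functions of the free theory are integrals over the closed fields
-/

open MeasureTheory ProbabilityTheory
open Pool.Agent.N989.MK Pool.Agent.N109.T3

namespace Pool.Agent.N838.T3

noncomputable section

variable {n : ℕ}

/-- The flux of all colours, as a linear map. -/
def Fl : ∀ j : ℕ, (Pq j → Fin n → ℝ) →ₗ[ℝ] (Fin n → ℝ)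
  | 0 => LinearMap.proj (R := ℝ) (φ := fun _ : Unit => Fin n → ℝ) ()
  | j + 1 => ∑ r : Fin 4, Fl j ∘ₗ
      LinearMap.funLeft ℝ (Fin n → ℝ) (fun p : Pq j => (((0 : Fin 4), r, p) : Fin 4 × Fin 4 × Pq j))

theorem Fl_apply : ∀ (j : ℕ) (Y : Pq j → Fin n → ℝ) (b : Fin n),
    Fl j Y b = Pool.Agent.N565.MK.flx j fun p => Y p b
  | 0, Y, b => rfl
  | j + 1, Y, b => by
    have h : Fl (j + 1) Y = ∑ r : Fin 4, Fl j (fun p => Y (0, r, p)) := by
      simp only [Fl, LinearMap.sum_apply, LinearMap.comp_apply]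
      rfl
    rw [h, Finset.sum_apply]
    exact Finset.sum_congr rfl fun r _ => Fl_apply j _ b

/-- The closed fields. -/
def Cs (n j : ℕ) : Set (Pq j → Fin n → ℝ) := {Y | ∀ b, Pool.Agent.N565.MK.Clo j fun p => Y p b}

theorem Rep.congr {J : Type} [Fintype J] {Z Z' : (J → (Fin n → ℝ) → ℝ) → (Fin n → ℝ) → ℝ}
    {fl fl' : (J → Fin n → ℝ) →ₗ[ℝ] (Fin n → ℝ)} {Cl Cl' : Set (J → Fin n → ℝ)}
    (h : Rep Z fl Cl) (hZ : ∀ w x, Z' w x = Z w x) (hf : ∀ Y ∈ Cl, fl' Y = fl Y)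
    (hC : ∀ Y, Y ∈ Cl' ↔ Y ∈ Cl) : Rep Z' fl' Cl' := by
  obtain ⟨P, i1, i2, i3, i4, i5, ν, i6, Φ, hinj, hran, hfl, hw⟩ := h
  refine ⟨P, i1, i2, i3, i4, i5, ν, i6, Φ, hinj, fun Y => (hC Y).trans (hran Y), fun z => ?_, ?_⟩
  · rw [hf _ ((hran _).2 ⟨z, rfl⟩), hfl]
  · intro w hw' x
    rw [hZ, hw w hw' x]

/-- One step of the hierarchy. -/
theorem Rep.step {J : Type} [Fintype J] {Z : (J → (Fin n → ℝ) → ℝ) → (Fin n → ℝ) → ℝ}
    {fl : (J → Fin n → ℝ) →ₗ[ℝ] (Fin n → ℝ)} {Cl : Set (J → Fin n → ℝ)} (h : Rep Z fl Cl) :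
    Rep (J := Fin 4 × Fin 4 × J)
      (fun w x => ∏ s : Fin 4, cv (cv (Z fun p => w (s, 0, p)) (Z fun p => w (s, 1, p)))
        (cv (Z fun p => w (s, 2, p)) (Z fun p => w (s, 3, p))) x)
      (∑ r : Fin 4, fl ∘ₗ LinearMap.funLeft ℝ (Fin n → ℝ) (fun p => (0, r, p)))
      {Y | ∀ s, (∀ r, (fun p => Y (s, r, p)) ∈ Cl) ∧
        ∑ r, fl (fun p => Y (s, r, p)) = ∑ r, fl (fun p => Y (0, r, p))} := by
  have h2 := Rep.conv h h
  have h4 := Rep.reindex (quart J) (Rep.conv h2 h2)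
  have h5 := Rep.prod4 h4
  have hf : ∀ (Y : Fin 4 × Fin 4 × J → Fin n → ℝ) (s : Fin 4),
      ((((fl ∘ₗ LinearMap.funLeft ℝ (Fin n → ℝ) Sum.inl +
              fl ∘ₗ LinearMap.funLeft ℝ (Fin n → ℝ) Sum.inr) ∘ₗ
              LinearMap.funLeft ℝ (Fin n → ℝ) Sum.inl +
            (fl ∘ₗ LinearMap.funLeft ℝ (Fin n → ℝ) Sum.inl +
              fl ∘ₗ LinearMap.funLeft ℝ (Fin n → ℝ) Sum.inr) ∘ₗ
              LinearMap.funLeft ℝ (Fin n → ℝ) Sum.inr) ∘ₗ
            LinearMap.funLeft ℝ (Fin n → ℝ) (quart J)) : (Fin 4 × J → Fin n → ℝ) →ₗ[ℝ] _)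
              (fun q => Y (s, q)) =
          ∑ r : Fin 4, fl fun p => Y (s, r, p) := by
    intro Y s
    rw [Fin.sum_univ_four, add_assoc]
    rfl
  refine Rep.congr h5 ?_ ?_ ?_
  · intro w x
    rfl
  · intro Y _
    have h1 := hf Y 0
    refine Eq.trans ?_ h1.symm
    rw [LinearMap.sum_apply]
    rfl
  · intro Y
    constructor
    · intro hY s
      refine ⟨⟨⟨(hY s).1 0, (hY s).1 1⟩, ⟨(hY s).1 2, (hY s).1 3⟩⟩, ?_⟩
      refine (hf Y s).trans ((hY s).2.trans (hf Y 0).symm)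
    · intro hY s
      refine ⟨fun r => ?_, ?_⟩
      · have h1 := (hY s).1
        fin_cases r
        · exact h1.1.1
        · exact h1.1.2
        · exact h1.2.1
        · exact h1.2.2
      · exact (hf Y s).symm.trans ((hY s).2.trans (hf Y 0))

theorem rep_ZR : ∀ j : ℕ, Rep (n := n) (J := Pq j) (ZR j) (Fl j) (Cs n j)
  | 0 => by
    refine Rep.congr (J := Unit) Rep.base ?_ ?_ ?_
    · intro w x
      rfl
    · intro Y _
      rfl
    · intro Y
      exact ⟨fun _ => Set.mem_univ _, fun _ b => trivial⟩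
  | j + 1 => by
    have h := Rep.step (rep_ZR j)
    refine Rep.congr (J := Fin 4 × Fin 4 × Pq j) h ?_ ?_ ?_
    · intro w x
      rfl
    · intro Y _
      rfl
    · intro Y
      have hs : ∀ s : Fin 4, ∀ b, (∑ r : Fin 4, Fl j fun p => Y (s, r, p)) b =
          ∑ r : Fin 4, Pool.Agent.N565.MK.flx j fun p => Y (s, r, p) b := by
        intro s b
        rw [Finset.sum_apply]
        exact Finset.sum_congr rfl fun r _ => Fl_apply j _ b
      constructor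
      · intro hY s
        refine ⟨fun r b => (hY b).1 s r, ?_⟩
        funext b
        rw [hs, hs]
        exact (hY b).2 s
      · intro hY b
        refine ⟨fun s r => (hY s).1 r b, fun s => ?_⟩
        have h1 := congrFun (hY s).2 b
        rw [hs, hs] at h1
        exact h1

end

end Pool.Agent.N838.T3
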