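import Mathlib
import Pool.Agent.N838.T3.FreeInd
import Pool.Agent.N838.T3.FreeGau

/-!
# The free theory: the correlation functions defined by convolutions are those of the standard
Gaussian law on the closed fields
-/

open MeasureTheory ProbabilityTheory
open Pool.Agent.N989.MK Pool.Agent.N109.T3

namespace Pool.Agent.N838.T3

noncomputable section

variable {n : ℕ}

/-- measurable functions of polynomial growth -/
structure Pgr (w : (Fin n → ℝ) → ℝ) : Prop where
  meas : Measurable w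
  dec : ∃ (r : ℕ) (C : ℝ), ∀ x, |w x| ≤ C * (1 + ‖x‖) ^ r

theorem Pgr.one : Pgr (n := n) fun _ => 1 :=
  ⟨measurable_const, 0, 1, fun x => by simp⟩

theorem Pgr.const (c : ℝ) : Pgr (n := n) fun _ => c :=
  ⟨measurable_const, 0, |c|, fun x => by simp⟩

theorem Pgr.mul {v w : (Fin n → ℝ) → ℝ} (hv : Pgr v) (hw : Pgr w) : Pgr fun x => v x * w x := by
  obtain ⟨r, C, h⟩ := hv.dec
  obtain ⟨s, D, k⟩ := hw.dec
  refine ⟨hv.meas.mul hw.meas, r + s, C * D, fun x => ?_⟩
  rw [abs_mul, pow_add]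
  calc |v x| * |w x| ≤ (C * (1 + ‖x‖) ^ r) * (D * (1 + ‖x‖) ^ s) :=
        mul_le_mul (h x) (k x) (abs_nonneg _) ((abs_nonneg _).trans (h x))
    _ = C * D * ((1 + ‖x‖) ^ r * (1 + ‖x‖) ^ s) := by ring

theorem Pgr.prod {ι : Type} (s : Finset ι) (w : ι → (Fin n → ℝ) → ℝ) (h : ∀ i, Pgr (w i)) :
    Pgr fun x => ∏ i ∈ s, w i x := by
  classical
  induction s using Finset.induction_on with
  | empty => simpa using Pgr.one
  | insert a s ha ih =>
    have := (h a).mul ih
    refine ⟨?_, ?_⟩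
    · simpa only [Finset.prod_insert ha] using this.meas
    · simpa only [Finset.prod_insert ha] using this.dec

theorem Pgr.sub {v w : (Fin n → ℝ) → ℝ} (hv : Pgr v) (hw : Pgr w) : Pgr fun x => v x - w x := by
  obtain ⟨r, C, h⟩ := hv.dec
  obtain ⟨s, D, k⟩ := hw.dec
  refine ⟨hv.meas.sub hw.meas, r + s, |C| + |D|, fun x => ?_⟩
  have h1 : (1 : ℝ) ≤ 1 + ‖x‖ := by
    have := norm_nonneg x
    linarith
  have h2 : (1 + ‖x‖) ^ r ≤ (1 + ‖x‖) ^ (r + s) := pow_le_pow_right₀ h1 (Nat.le_add_right _ _)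
  have h3 : (1 + ‖x‖) ^ s ≤ (1 + ‖x‖) ^ (r + s) := pow_le_pow_right₀ h1 (Nat.le_add_left _ _)
  have h4 : |v x| ≤ |C| * (1 + ‖x‖) ^ (r + s) :=
    (h x).trans (mul_le_mul (le_abs_self _) h2 (by positivity) (abs_nonneg _))
  have h5 : |w x| ≤ |D| * (1 + ‖x‖) ^ (r + s) :=
    (k x).trans (mul_le_mul (le_abs_self _) h3 (by positivity) (abs_nonneg _))
  calc |v x - w x| ≤ |v x| + |w x| := abs_sub _ _
    _ ≤ _ := by rw [add_mul]; exact add_le_add h4 h5

theorem Pgr.fr : Pgr (n := n) fun x => fr x := by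
  refine ⟨?_, 2, n, fun x => ?_⟩
  · unfold Pool.Agent.N109.T3.fr
    fun_prop
  · unfold Pool.Agent.N109.T3.fr
    have h1 : ∀ b, x b ^ 2 ≤ (1 + ‖x‖) ^ 2 := by
      intro b
      have h2 : |x b| ≤ ‖x‖ := norm_le_pi_norm x b
      have h3 := norm_nonneg x
      rw [← sq_abs]
      exact pow_le_pow_left₀ (abs_nonneg _) (by linarith) 2
    have h4 : ∑ b, x b ^ 2 ≤ n * (1 + ‖x‖) ^ 2 := by
      calc ∑ b, x b ^ 2 ≤ ∑ _b : Fin n, (1 + ‖x‖) ^ 2 := Finset.sum_le_sum fun b _ => h1 b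
        _ = n * (1 + ‖x‖) ^ 2 := by simp
    have h5 : 0 ≤ ∑ b, x b ^ 2 := Finset.sum_nonneg fun b _ => sq_nonneg _
    rw [abs_div, abs_neg, abs_of_nonneg h5, abs_of_pos (by norm_num : (0 : ℝ) < 2)]
    linarith

theorem gs_le (x : Fin n → ℝ) : gs x ≤ Real.exp (-‖x‖ ^ 2 / 2) := by
  unfold gs
  apply Real.exp_le_exp.2
  rcases isEmpty_or_nonempty (Fin n) with h | h
  · have : x = 0 := Subsingleton.elim _ _
    subst this
    simp
  · obtain ⟨b, -, hb⟩ := Finset.exists_mem_eq_sup' (Finset.univ_nonempty (α := Fin n)) fun b => ‖x b‖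
    have h1 : ‖x‖ = ‖x b‖ := by
      apply le_antisymm
      · refine (pi_norm_le_iff_of_nonneg (norm_nonneg _)).2 fun c => ?_
        rw [← hb]
        exact Finset.le_sup' (fun b => ‖x b‖) (Finset.mem_univ c)
      · exact norm_le_pi_norm x b
    have h2 : x b ^ 2 ≤ ∑ c, x c ^ 2 :=
      Finset.single_le_sum (f := fun c => x c ^ 2) (fun c _ => sq_nonneg _) (Finset.mem_univ b)
    rw [h1, Real.norm_eq_abs, sq_abs]
    linarith

theorem Rap.of_pgr {w : (Fin n → ℝ) → ℝ} (hw : Pgr w) : Rap fun x => gs x * w x := by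
  obtain ⟨s, C, h⟩ := hw.dec
  refine ⟨?_, fun r => ?_⟩
  · have : Measurable (gs : (Fin n → ℝ) → ℝ) := by
      unfold gs
      fun_prop
    exact this.mul hw.meas
  · refine ⟨|C| * ((r + s).factorial * Real.exp 2), fun x => ?_⟩
    have hx := norm_nonneg x
    have h0 : (0 : ℝ) < 1 + ‖x‖ := by positivity
    rw [← div_eq_mul_inv, le_div_iff₀ (pow_pos h0 r), abs_mul]
    have h1 : |gs x| ≤ Real.exp (-‖x‖ ^ 2 / 2) := by
      rw [abs_of_pos (by unfold gs; exact Real.exp_pos _)]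
      exact gs_le x
    have h2 : |w x| ≤ |C| * (1 + ‖x‖) ^ s :=
      (h x).trans (mul_le_mul_of_nonneg_right (le_abs_self _) (by positivity))
    have h3 : (1 + ‖x‖) ^ (r + s) ≤ (r + s).factorial * Real.exp (1 + ‖x‖) := by
      have := Real.pow_div_factorial_le_exp (1 + ‖x‖) h0.le (r + s)
      rw [div_le_iff₀ (by positivity)] at this
      linarith
    have h4 : Real.exp (-‖x‖ ^ 2 / 2) * Real.exp (1 + ‖x‖) ≤ Real.exp 2 := by
      rw [← Real.exp_add]
      apply Real.exp_le_exp.2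
      nlinarith [sq_nonneg (‖x‖ - 1)]
    calc |gs x| * |w x| * (1 + ‖x‖) ^ r
        ≤ Real.exp (-‖x‖ ^ 2 / 2) * (|C| * (1 + ‖x‖) ^ s) * (1 + ‖x‖) ^ r := by
          refine mul_le_mul_of_nonneg_right ?_ (by positivity)
          exact mul_le_mul h1 h2 (abs_nonneg _) (Real.exp_pos _).le
      _ = |C| * (Real.exp (-‖x‖ ^ 2 / 2) * (1 + ‖x‖) ^ (r + s)) := by
          rw [pow_add]
          ring
      _ ≤ |C| * ((r + s).factorial * Real.exp 2) := by
          refine mul_le_mul_of_nonneg_left ?_ (abs_nonneg _)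
          calc Real.exp (-‖x‖ ^ 2 / 2) * (1 + ‖x‖) ^ (r + s)
              ≤ Real.exp (-‖x‖ ^ 2 / 2) * ((r + s).factorial * Real.exp (1 + ‖x‖)) :=
                mul_le_mul_of_nonneg_left h3 (Real.exp_pos _).le
            _ = (r + s).factorial * (Real.exp (-‖x‖ ^ 2 / 2) * Real.exp (1 + ‖x‖)) := by ring
            _ ≤ (r + s).factorial * Real.exp 2 :=
                mul_le_mul_of_nonneg_left h4 (by positivity)

/-- The inner product space of the `n`-tuples of closed fields. -/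
abbrev Wn (n j : ℕ) := PiLp 2 fun _ : Fin n => cf j

theorem free_eq (n j : ℕ) : (free n j).map (WithLp.toLp 2) = stdGaussian (Wn n j) := by
  unfold free
  apply Measure.ext_of_charFun
  funext t
  rw [charFun_pi, charFun_stdGaussian]
  simp_rw [charFun_stdGaussian]
  rw [← Complex.exp_sum]
  have hN : ‖t‖ ^ 2 = ∑ b, ‖t.ofLp b‖ ^ 2 := PiLp.norm_sq_eq_of_L2 _ t
  have hN2 : (‖t‖ : ℂ) ^ 2 = ∑ b, (‖t.ofLp b‖ : ℂ) ^ 2 := by exact_mod_cast hN
  rw [hN2, ← Finset.sum_div, Finset.sum_neg_distrib]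

/-- The Gaussian weight of a tuple of closed fields. -/
theorem prod_gs {n j : ℕ} (v : Wn n j) :
    ∏ q : Pq j, gs (fun b : Fin n => (v b).1 q) = Real.exp (-‖v‖ ^ 2 / 2) := by
  unfold gs
  rw [← Real.exp_sum]
  congr 1
  have hN : ‖v‖ ^ 2 = ∑ b, ‖v.ofLp b‖ ^ 2 := PiLp.norm_sq_eq_of_L2 _ v
  have h2 : ∀ b, ‖v.ofLp b‖ ^ 2 = ∑ q, (v b).1 q ^ 2 := by
    intro b
    have h3 : ‖v.ofLp b‖ = ‖(v.ofLp b).1‖ := rfl
    rw [h3, EuclideanSpace.norm_sq_eq]
    exact Finset.sum_congr rfl fun q _ => by rw [Real.norm_eq_abs, sq_abs]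
  rw [hN, Finset.sum_congr rfl fun b _ => h2 b, Finset.sum_comm, ← Finset.sum_div,
    Finset.sum_neg_distrib]

/-- **The partition function with insertions is a Gaussian expectation.** -/
theorem exists_const (n j : ℕ) : ∃ c : ℝ, c ≠ 0 ∧ ∀ G : Pq j → (Fin n → ℝ) → ℝ,
    (∀ q, Pgr (G q)) → ∫ x, ZR j (fun q x => gs x * G q x) x =
      c * ∫ Y : Fin n → cf j, ∏ q, G q (fun b => (Y b).1 q) ∂(free n j) := by
  obtain ⟨P, i1, i2, i3, i4, i5, ν, i6, Φ, hinj, hran, hfl, hw⟩ := rep_ZR (n := n) j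
  have hcf : ∀ Y : Pq j → Fin n → ℝ, (∃ z, Φ z = Y) ↔
      ∀ b, WithLp.toLp 2 (fun q => Y q b) ∈ cf j := by
    intro Y
    rw [← hran]
    refine forall_congr' fun b => ?_
    exact (Pool.Agent.N565.MK.exact_iff j fun q => Y q b).symm
  -- the linear equivalence
  let Ψ : ((Fin n → ℝ) × P) →ₗ[ℝ] Wn n j :=
    { toFun := fun z => WithLp.toLp 2 fun b =>
        ⟨WithLp.toLp 2 fun q => Φ z q b, (hcf (Φ z)).1 ⟨z, rfl⟩ b⟩
      map_add' := by
        intro z z'
        ext b q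
        exact congrFun (congrFun (Φ.map_add z z') q) b
      map_smul' := by
        intro c z
        ext b q
        exact congrFun (congrFun (Φ.map_smul c z) q) b }
  have hΨ : ∀ z b q, (Ψ z b).1 q = Φ z q b := fun z b q => rfl
  have hbij : Function.Bijective Ψ := by
    constructor
    · intro z z' h
      apply hinj
      funext q b
      rw [← hΨ, ← hΨ, h]
    · intro v
      obtain ⟨z, hz⟩ := (hcf fun q b => (v b).1 q).2 fun b => (v b).2
      refine ⟨z, ?_⟩
      ext b q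
      rw [hΨ, hz]
  let e : ((Fin n → ℝ) × P) ≃ₗ[ℝ] Wn n j := LinearEquiv.ofBijective Ψ hbij
  let ec : ((Fin n → ℝ) × P) ≃L[ℝ] Wn n j := e.toContinuousLinearEquiv
  have k3 : ((volume : Measure (Fin n → ℝ)).prod ν).IsAddHaarMeasure :=
    Measure.prod.instIsAddHaarMeasure _ _
  have k4 : (((volume : Measure (Fin n → ℝ)).prod ν).map ec).IsAddHaarMeasure :=
    ec.isAddHaarMeasure_map _
  have k5 := Measure.isAddLeftInvariant_eq_smul
    (((volume : Measure (Fin n → ℝ)).prod ν).map ec) (vl (Wn n j))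
  set c0 := Measure.addHaarScalarFactor (((volume : Measure (Fin n → ℝ)).prod ν).map ec)
    (vl (Wn n j)) with hc0
  have hc0pos : 0 < c0 := Measure.addHaarScalarFactor_pos_of_isAddHaarMeasure _ _
  refine ⟨(c0 : ℝ) * gK (Wn n j), mul_ne_zero (by exact_mod_cast hc0pos.ne') gK_pos.ne', ?_⟩
  intro G hG
  have hR : ∀ q, Rap fun x => gs x * G q x := fun q => Rap.of_pgr (hG q)
  have h1 : ∫ x, ZR j (fun q x => gs x * G q x) x =
      ∫ z, ∏ q, (gs (Φ z q) * G q (Φ z q)) ∂((volume : Measure (Fin n → ℝ)).prod ν) := by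
    have hI := integrable_prod_rap ((volume : Measure (Fin n → ℝ)).prod ν) Φ hinj 0
      (fun q x => gs x * G q x) hR
    simp only [Pi.zero_apply, add_zero] at hI
    rw [integral_prod _ hI]
    exact integral_congr_ae (Filter.Eventually.of_forall fun x => hw _ hR x)
  have h2 : ∀ z, ∏ q, (gs (Φ z q) * G q (Φ z q)) =
      (fun v : Wn n j => Real.exp (-‖v‖ ^ 2 / 2) * ∏ q, G q (fun b => (v b).1 q)) (ec z) := by
    intro z
    have h3 : ∀ q, Φ z q = fun b => ((ec z) b).1 q := fun q => rfl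
    rw [Finset.prod_mul_distrib]
    simp only
    rw [← prod_gs]
    rfl
  rw [h1]
  simp only [h2]
  have h4 := (ec.toHomeomorph.measurableEmbedding).integral_map
    (μ := (volume : Measure (Fin n → ℝ)).prod ν)
    (fun v : Wn n j => Real.exp (-‖v‖ ^ 2 / 2) * ∏ q, G q (fun b => (v b).1 q))
  refine h4.symm.trans ?_
  have h7 : Measure.map (⇑ec.toHomeomorph) ((volume : Measure (Fin n → ℝ)).prod ν) =
      c0 • vl (Wn n j) := k5
  rw [h7, integral_smul_nnreal_measure, integral_stdGaussian_vl, ← free_eq]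
  have h5 := (MeasurableEquiv.toLp 2 (Fin n → cf j)).measurableEmbedding.integral_map
    (μ := free n j) (fun v : Wn n j => ∏ q, G q (fun b => (v b).1 q))
  have h6 : (⇑(MeasurableEquiv.toLp 2 (Fin n → cf j)) : (Fin n → cf j) → Wn n j) =
      WithLp.toLp 2 := rfl
  rw [h6] at h5
  rw [h5, mul_assoc]
  rfl

theorem free_univ (n j : ℕ) : IsProbabilityMeasure (free n j) := by
  unfold free
  infer_instance

/-- **Expectations in the free theory are Gaussian expectations.** -/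
theorem ER_eq {j r : ℕ} (p : Fin r → Pq j) (O : Fin r → (Fin n → ℝ) → ℝ) (hO : ∀ a, Pgr (O a)) :
    ER p O = ∫ Y : Fin n → cf j, ∏ a, O a (fun b => (Y b).1 (p a)) ∂(free n j) := by
  classical
  obtain ⟨c, hc, h⟩ := exists_const n j
  unfold ER
  have h1 := h (fun q => insR p O q) (fun q => by
    unfold insR
    refine Pgr.prod _ _ fun a => ?_
    by_cases hq : q = p a
    · simpa only [if_pos hq] using hO a
    · simpa only [if_neg hq] using Pgr.one)
  have h2 := h (fun _ _ => 1) (fun q => Pgr.one)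
  simp only [mul_one, Finset.prod_const_one] at h2
  have hp := free_univ n j
  rw [integral_const, probReal_univ, one_smul, mul_one] at h2
  rw [h1, h2, mul_div_assoc, mul_comm, div_mul_cancel₀ _ hc]
  refine integral_congr_ae (Filter.Eventually.of_forall fun Y => ?_)
  simp only [insR]
  rw [Finset.prod_comm]
  refine Finset.prod_congr rfl fun a _ => ?_
  rw [Finset.prod_ite_eq' Finset.univ (p a) fun q => O a fun b => (Y b).1 q]
  simp

/-- **The correlation functions of the free theory.** -/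
theorem CR_eq_CG (n : ℕ) {j r : ℕ} (p : Fin r → Pq j) : CR n p = CG n p := by
  have h1 : ∀ a, ER (n := n) (fun _ : Fin 1 => p a) (fun _ x => fr x) =
      ∫ Y', fq Y' (p a) ∂(free n j) := by
    intro a
    rw [ER_eq _ _ fun _ => Pgr.fr]
    refine integral_congr_ae (Filter.Eventually.of_forall fun Y => ?_)
    simp only [Finset.univ_unique, Finset.prod_singleton]
    rfl
  unfold CR CG
  rw [ER_eq _ _ fun a => Pgr.fr.sub (Pgr.const _)]
  simp only [h1]
  rfl

end

end Pool.Agent.N838.T3
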